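import Mathlib

/-!
# MP_6af485_co: perfect matchings of bipartite graphs without 4-cycles, basic identities

`G.pm S`: number of perfect matchings of the subgraph induced on `S` (fixed point free involutions of `S` along edges).
`G.F S = pm S * 2 ^ ((|S| - 2 e(S)) / 6)`.
-/

set_option autoImplicit false

namespace Pool.Agent.CFree

open Finset

/-- bipartite graphs without cycles of length 4 on a finite type -/
structure BG (V : Type) [Fintype V] [DecidableEq V] where
  adj : V → V → Prop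
  dec : DecidableRel adj
  symm : ∀ u v, adj u v → adj v u
  col : V → Bool
  bip : ∀ u v, adj u v → col u ≠ col v
  c4 : ∀ u v a b, u ≠ v → adj u a → adj v a → adj u b → adj v b → a = b

attribute [instance] BG.dec

variable {V : Type} [Fintype V] [DecidableEq V] (G : BG V)

/-- neighbours in `S` -/
def BG.N (S : Finset V) (v : V) : Finset V := S.filter fun u => G.adj v u

/-- degree in `S` -/
def BG.deg (S : Finset V) (v : V) : ℕ := (G.N S v).card

/-- perfect matchings of `S` as involutions -/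
def BG.PM (S : Finset V) : Finset (Equiv.Perm V) :=
  univ.filter fun f => (∀ x, f (f x) = x) ∧ (∀ x ∈ S, G.adj x (f x)) ∧ ∀ x, x ∉ S → f x = x

/-- number of perfect matchings of `S` -/
def BG.pm (S : Finset V) : ℕ := (G.PM S).card

/-- sum of the degrees -/
def BG.E2 (S : Finset V) : ℕ := ∑ v ∈ S, G.deg S v

/-- the normalized number of perfect matchings -/
noncomputable def BG.F (S : Finset V) : ℝ :=
  (G.pm S : ℝ) * (2 : ℝ) ^ (((S.card : ℝ) - (G.E2 S : ℝ)) / 6)

variable {G}

theorem BG.irr (v : V) : ¬ G.adj v v := fun h => G.bip v v h rfl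

theorem BG.mem_N {S : Finset V} {v u : V} : u ∈ G.N S v ↔ u ∈ S ∧ G.adj v u := by
  simp [BG.N]

theorem BG.N_erase (S : Finset V) (w v : V) : G.N (S.erase w) v = (G.N S v).erase w := by
  ext x
  simp only [BG.mem_N, mem_erase]
  tauto

theorem BG.deg_erase_of_adj {S : Finset V} {w v : V} (h : G.adj v w) (hw : w ∈ S) :
    G.deg (S.erase w) v + 1 = G.deg S v := by
  unfold BG.deg
  rw [BG.N_erase]
  exact card_erase_add_one (BG.mem_N.2 ⟨hw, h⟩)

theorem BG.deg_erase_of_not {S : Finset V} {w v : V} (h : ¬ G.adj v w) :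
    G.deg (S.erase w) v = G.deg S v := by
  unfold BG.deg
  rw [BG.N_erase, erase_eq_of_notMem]
  intro hm
  exact h (BG.mem_N.1 hm).2

theorem BG.pm_expand {S : Finset V} {v : V} (hv : v ∈ S) :
    G.pm S = ∑ u ∈ G.N S v, G.pm ((S.erase v).erase u) := by
  unfold BG.pm
  have hmap : ∀ f ∈ G.PM S, f v ∈ G.N S v := by
    intro f hf
    simp only [BG.PM, mem_filter, mem_univ, true_and] at hf
    obtain ⟨h1, h2, h3⟩ := hf
    refine BG.mem_N.2 ⟨?_, h2 v hv⟩
    by_contra hn
    have h4 := h3 (f v) hn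
    rw [h1] at h4
    rw [← h4] at hn
    exact hn hv
  rw [card_eq_sum_card_fiberwise (f := fun f : Equiv.Perm V => f v) (t := G.N S v) (fun f hf => hmap f hf)]
  refine sum_congr rfl fun u hu => ?_
  obtain ⟨huS, hadj⟩ := BG.mem_N.1 hu
  have huv : u ≠ v := by
    rintro rfl
    exact BG.irr _ hadj
  refine card_nbij' (fun f => f * Equiv.swap v u) (fun g => g * Equiv.swap v u) ?_ ?_ ?_ ?_
  · intro f hf
    simp only [BG.PM, coe_filter, mem_filter, mem_univ, true_and, Set.mem_ofPred_eq] at hf ⊢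
    obtain ⟨⟨h1, h2, h3⟩, h4⟩ := hf
    have h5 : f u = v := by rw [← h4, h1]
    have key : ∀ x, x ≠ v → x ≠ u → (f * Equiv.swap v u) x = f x := fun x hxv hxu => by
      rw [Equiv.Perm.mul_apply, Equiv.swap_apply_of_ne_of_ne hxv hxu]
    have kv : (f * Equiv.swap v u) v = v := by rw [Equiv.Perm.mul_apply, Equiv.swap_apply_left, h5]
    have ku : (f * Equiv.swap v u) u = u := by rw [Equiv.Perm.mul_apply, Equiv.swap_apply_right, h4]
    refine ⟨?_, ?_, ?_⟩
    · intro x
      by_cases hxv : x = v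
      · rw [hxv, kv, kv]
      · by_cases hxu : x = u
        · rw [hxu, ku, ku]
        · rw [key x hxv hxu, key (f x) (fun h => hxu (by rw [← h1 x, h, h4])) (fun h => hxv (by rw [← h1 x, h, h5])), h1]
    · intro x hx
      simp only [mem_erase] at hx
      rw [key x hx.2.1 hx.1]
      exact h2 x hx.2.2
    · intro x hx
      by_cases hxv : x = v
      · rw [hxv, kv]
      · by_cases hxu : x = u
        · rw [hxu, ku]
        · rw [key x hxv hxu]
          refine h3 x fun hxS => hx ?_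
          simp only [mem_erase]
          exact ⟨hxu, hxv, hxS⟩
  · intro g hg
    simp only [BG.PM, coe_filter, mem_filter, mem_univ, true_and, Set.mem_ofPred_eq] at hg ⊢
    obtain ⟨h1, h2, h3⟩ := hg
    have gv : g v = v := h3 v (by simp)
    have gu : g u = u := h3 u (by simp)
    have key : ∀ x, x ≠ v → x ≠ u → (g * Equiv.swap v u) x = g x := fun x hxv hxu => by
      rw [Equiv.Perm.mul_apply, Equiv.swap_apply_of_ne_of_ne hxv hxu]
    have kv : (g * Equiv.swap v u) v = u := by rw [Equiv.Perm.mul_apply, Equiv.swap_apply_left, gu]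
    have ku : (g * Equiv.swap v u) u = v := by rw [Equiv.Perm.mul_apply, Equiv.swap_apply_right, gv]
    refine ⟨⟨?_, ?_, ?_⟩, kv⟩
    · intro x
      by_cases hxv : x = v
      · rw [hxv, kv, ku]
      · by_cases hxu : x = u
        · rw [hxu, ku, kv]
        · rw [key x hxv hxu, key (g x) (fun h => hxv (by rw [← h1 x, h, gv])) (fun h => hxu (by rw [← h1 x, h, gu])), h1]
    · intro x hx
      by_cases hxv : x = v
      · rw [hxv, kv]; exact hadj
      · by_cases hxu : x = u
        · rw [hxu, ku]; exact G.symm _ _ hadj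
        · rw [key x hxv hxu]
          exact h2 x (by simp only [mem_erase]; exact ⟨hxu, hxv, hx⟩)
    · intro x hx
      have hxv : x ≠ v := fun h => hx (h ▸ hv)
      have hxu : x ≠ u := fun h => hx (h ▸ huS)
      rw [key x hxv hxu]
      exact h3 x (fun h => hx (by simp only [mem_erase] at h; exact h.2.2))
  · intro f hf
    simp [mul_assoc]
  · intro g hg
    simp [mul_assoc]

theorem BG.E2_erase {S : Finset V} {v : V} (hv : v ∈ S) :
    G.E2 S = G.E2 (S.erase v) + 2 * G.deg S v := by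
  unfold BG.E2
  rw [← add_sum_erase S _ hv]
  have h1 : ∀ w ∈ S.erase v, G.deg S w = G.deg (S.erase v) w + if G.adj v w then 1 else 0 := by
    intro w hw
    by_cases h : G.adj v w
    · rw [if_pos h, BG.deg_erase_of_adj (G.symm _ _ h) hv]
    · rw [if_neg h, BG.deg_erase_of_not (fun h' => h (G.symm _ _ h')), add_zero]
  rw [sum_congr rfl h1, sum_add_distrib, ← card_filter]
  have h2 : ((S.erase v).filter fun w => G.adj v w) = G.N S v := by
    ext x
    simp only [mem_filter, mem_erase, BG.mem_N]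
    constructor
    · rintro ⟨⟨_, h⟩, h'⟩; exact ⟨h, h'⟩
    · rintro ⟨h, h'⟩
      exact ⟨⟨fun e => BG.irr v (e ▸ h'), h⟩, h'⟩
  rw [h2]
  unfold BG.deg
  ring

theorem BG.E2_pair {S : Finset V} {v u : V} (hv : v ∈ S) (hu : u ∈ S) (h : G.adj v u) :
    G.E2 S + 2 = G.E2 ((S.erase v).erase u) + 2 * (G.deg S v + G.deg S u) := by
  have huv : u ≠ v := fun e => BG.irr v (e ▸ h)
  have h1 := BG.E2_erase (G := G) hv
  have h2 := BG.E2_erase (G := G) (S := S.erase v) (v := u) (mem_erase.2 ⟨huv, hu⟩)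
  have h3 := BG.deg_erase_of_adj (G := G) (S := S) (G.symm _ _ h) hv
  omega

/-- `2 ^ (- 1 / 3)` -/
noncomputable def yy : ℝ := (2 : ℝ) ^ (-(1 / 3) : ℝ)

theorem yy_pos : 0 < yy := Real.rpow_pos_of_pos (by norm_num) _

theorem yy_cube : yy ^ 3 = 1 / 2 := by
  unfold yy
  rw [← Real.rpow_natCast, ← Real.rpow_mul (by norm_num)]
  norm_num

theorem yy_lt : yy < 7938 / 10000 := by
  by_contra h
  push Not at h
  have h1 : (7938 / 10000 : ℝ) ^ 3 ≤ yy ^ 3 := pow_le_pow_left₀ (by norm_num) h 3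
  rw [yy_cube] at h1
  norm_num at h1

theorem yy_gt : 7937 / 10000 < yy := by
  by_contra h
  push Not at h
  have h1 : yy ^ 3 ≤ (7937 / 10000 : ℝ) ^ 3 := pow_le_pow_left₀ yy_pos.le h 3
  rw [yy_cube] at h1
  norm_num at h1

theorem BG.F_nonneg (G : BG V) (S : Finset V) : 0 ≤ G.F S := by
  unfold BG.F
  positivity

theorem BG.F_pair {S : Finset V} {v u : V} (hv : v ∈ S) (hu : u ∈ S) (h : G.adj v u) :
    (G.pm ((S.erase v).erase u) : ℝ) * (2 : ℝ) ^ (((S.card : ℝ) - (G.E2 S : ℝ)) / 6) =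
      yy ^ (G.deg S v + G.deg S u - 2) * G.F ((S.erase v).erase u) := by
  have huv : u ≠ v := fun e => BG.irr v (e ▸ h)
  have h1 := BG.E2_pair (G := G) hv hu h
  have hc : S.card = ((S.erase v).erase u).card + 2 := by
    have e1 := card_erase_add_one (mem_erase.2 ⟨huv, hu⟩ : u ∈ S.erase v)
    have e2 := card_erase_add_one hv
    omega
  have hd1 : 1 ≤ G.deg S v := card_pos.2 ⟨u, BG.mem_N.2 ⟨hu, h⟩⟩
  have hd2 : 1 ≤ G.deg S u := card_pos.2 ⟨v, BG.mem_N.2 ⟨hv, G.symm _ _ h⟩⟩
  unfold BG.F yy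
  rw [← Real.rpow_natCast, ← Real.rpow_mul (by norm_num), mul_left_comm, ← Real.rpow_add (by norm_num)]
  congr 2
  have h1' : (G.E2 S : ℝ) + 2 = G.E2 ((S.erase v).erase u) + 2 * ((G.deg S v : ℝ) + G.deg S u) := by exact_mod_cast h1
  have hc' : (S.card : ℝ) = ((S.erase v).erase u).card + 2 := by exact_mod_cast hc
  have e3 : ((G.deg S v + G.deg S u - 2 : ℕ) : ℝ) = (G.deg S v : ℝ) + G.deg S u - 2 := by
    rw [Nat.cast_sub (by omega)]
    push_cast
    ring
  rw [e3]
  linarith

theorem BG.F_expand {S : Finset V} {v : V} (hv : v ∈ S) :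
    G.F S = ∑ u ∈ G.N S v, yy ^ (G.deg S v + G.deg S u - 2) * G.F ((S.erase v).erase u) := by
  have h1 : G.F S = ∑ u ∈ G.N S v, (G.pm ((S.erase v).erase u) : ℝ) * (2 : ℝ) ^ (((S.card : ℝ) - (G.E2 S : ℝ)) / 6) := by
    rw [← sum_mul]
    unfold BG.F
    rw [BG.pm_expand hv]
    push_cast
    rfl
  rw [h1]
  refine sum_congr rfl fun u hu => ?_
  obtain ⟨huS, hadj⟩ := BG.mem_N.1 hu
  exact BG.F_pair hv huS hadj

end Pool.Agent.CFree
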