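import Mathlib

/-!
# MP_6af485_co: definitions

Square matrices with entries in `ℕ`; `Matrix.permanent` is the permanent.
-/

set_option autoImplicit false

namespace Pool.Agent.CFree

open Finset

/-- zero-one matrices -/
def ZeroOne {n : ℕ} (A : Matrix (Fin n) (Fin n) ℕ) : Prop := ∀ i j, A i j = 0 ∨ A i j = 1

/-- `C₄`-free: no two rows and two columns meet in four entries all equal to `1` -/
def C4Free {n : ℕ} (A : Matrix (Fin n) (Fin n) ℕ) : Prop :=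
  ∀ i i' j j', i ≠ i' → j ≠ j' → ¬ (A i j = 1 ∧ A i j' = 1 ∧ A i' j = 1 ∧ A i' j' = 1)

/-- the number of entries equal to `1` -/
def ones {n : ℕ} (A : Matrix (Fin n) (Fin n) ℕ) : ℕ :=
  (univ.filter fun p : Fin n × Fin n => A p.1 p.2 = 1).card

/-- `B` is a biadjacency matrix of a `k`-regular bipartite graph of girth `6` with `2 m` vertices:
entries `0` and `1`, all row sums and column sums equal to `k`, no cycle of length `4`, and there is a cycle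
`i₁ j₂ i₂ j₃ i₃ j₁` of length `6` -/
def RegGirth6 (k m : ℕ) (B : Matrix (Fin m) (Fin m) ℕ) : Prop :=
  ZeroOne B ∧ (∀ i, ∑ j, B i j = k) ∧ (∀ j, ∑ i, B i j = k) ∧ C4Free B ∧
    ∃ i₁ i₂ i₃ j₁ j₂ j₃ : Fin m, i₁ ≠ i₂ ∧ i₁ ≠ i₃ ∧ i₂ ≠ i₃ ∧ j₁ ≠ j₂ ∧ j₁ ≠ j₃ ∧ j₂ ≠ j₃ ∧
      B i₁ j₁ = 1 ∧ B i₁ j₂ = 1 ∧ B i₂ j₂ = 1 ∧ B i₂ j₃ = 1 ∧ B i₃ j₃ = 1 ∧ B i₃ j₁ = 1

/-- `v k`: half of the minimum number of vertices of a `k`-regular bipartite graph of girth `6` -/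
noncomputable def v (k : ℕ) : ℕ := sInf {m | ∃ B : Matrix (Fin m) (Fin m) ℕ, RegGirth6 k m B}

/-- `M k`: the maximum permanent of a biadjacency matrix of a minimum graph -/
noncomputable def M (k : ℕ) : ℕ :=
  sSup {p | ∃ B : Matrix (Fin (v k)) (Fin (v k)) ℕ, RegGirth6 k (v k) B ∧ B.permanent = p}

/-- the inequality of the question for `k` and `n`: `perm A ≤ M_k ^ (n / v_k)` for all `C₄`-free zero-one `n × n`
matrices `A` with at most `k n` ones -/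
def Ineq (k n : ℕ) : Prop :=
  ∀ A : Matrix (Fin n) (Fin n) ℕ, ZeroOne A → C4Free A → ones A ≤ k * n →
    (A.permanent : ℝ) ≤ (M k : ℝ) ^ ((n : ℝ) / (v k : ℝ))

end Pool.Agent.CFree
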