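import Pool.Agent.Lib_MP_6af485_co.StepD
import Pool.Agent.Lib_MP_6af485_co.Defs

/-!
# MP_6af485_co: permanents
-/

set_option autoImplicit false

namespace Pool.Agent.CFree

open Finset

variable {n : ℕ}

/-- adjacency -/
def padj (A : Matrix (Fin n) (Fin n) ℕ) : Fin n ⊕ Fin n → Fin n ⊕ Fin n → Prop
  | Sum.inl i, Sum.inr j => A i j = 1
  | Sum.inr j, Sum.inl i => A i j = 1
  | _, _ => False

instance (A : Matrix (Fin n) (Fin n) ℕ) : DecidableRel (padj A) := fun x y => by
  rcases x with i | j <;> rcases y with i' | j' <;> unfold padj <;> infer_instance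

/-- the bipartite graph of a matrix -/
def gr (A : Matrix (Fin n) (Fin n) ℕ) (h4 : C4Free A) : BG (Fin n ⊕ Fin n) where
  adj := padj A
  dec := inferInstance
  symm := by
    rintro (i | j) (i' | j') h
    · exact h.elim
    · exact h
    · exact h
    · exact h.elim
  col := Sum.isLeft
  bip := by
    rintro (i | j) (i' | j') h
    · exact h.elim
    · simp
    · simp
    · exact h.elim
  c4 := by
    rintro (i | j) (i' | j') (a | a) (b | b) hne h1 h2 h3 h4'
    all_goals first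
      | exact h1.elim
      | exact h2.elim
      | exact h3.elim
      | exact h4'.elim
      | skip
    · by_contra hab
      exact h4 i i' a b (fun h => hne (by rw [h])) (fun h => hab (by rw [h])) ⟨h1, h3, h2, h4'⟩
    · by_contra hab
      exact h4 a b j j' (fun h => hab (by rw [h])) (fun h => hne (by rw [h])) ⟨h1, h2, h3, h4'⟩

theorem gr_adj_lr (A : Matrix (Fin n) (Fin n) ℕ) (h4 : C4Free A) (i j : Fin n) :
    (gr A h4).adj (Sum.inl i) (Sum.inr j) ↔ A i j = 1 := Iff.rfl

theorem gr_adj_rl (A : Matrix (Fin n) (Fin n) ℕ) (h4 : C4Free A) (i j : Fin n) :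
    (gr A h4).adj (Sum.inr j) (Sum.inl i) ↔ A i j = 1 := Iff.rfl

theorem gr_adj_ll (A : Matrix (Fin n) (Fin n) ℕ) (h4 : C4Free A) (i j : Fin n) :
    ¬ (gr A h4).adj (Sum.inl i) (Sum.inl j) := fun h => h.elim

theorem gr_adj_rr (A : Matrix (Fin n) (Fin n) ℕ) (h4 : C4Free A) (i j : Fin n) :
    ¬ (gr A h4).adj (Sum.inr i) (Sum.inr j) := fun h => h.elim

theorem deg_inl (A : Matrix (Fin n) (Fin n) ℕ) (h4 : C4Free A) (i : Fin n) :
    (gr A h4).deg univ (Sum.inl i) = (univ.filter fun j => A i j = 1).card := by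
  have h : (gr A h4).N univ (Sum.inl i) =
      (univ.filter fun j => A i j = 1).map ⟨Sum.inr, Sum.inr_injective⟩ := by
    ext x
    rw [BG.mem_N, mem_map]
    rcases x with x | x
    · simp [gr_adj_ll]
    · simp [gr_adj_lr]
  unfold BG.deg
  rw [h, card_map]

theorem deg_inr (A : Matrix (Fin n) (Fin n) ℕ) (h4 : C4Free A) (j : Fin n) :
    (gr A h4).deg univ (Sum.inr j) = (univ.filter fun i => A i j = 1).card := by
  have h : (gr A h4).N univ (Sum.inr j) =
      (univ.filter fun i => A i j = 1).map ⟨Sum.inl, Sum.inl_injective⟩ := by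
    ext x
    rw [BG.mem_N, mem_map]
    rcases x with x | x
    · simp [gr_adj_rl]
    · simp [gr_adj_rr]
  unfold BG.deg
  rw [h, card_map]

theorem ones_rows (A : Matrix (Fin n) (Fin n) ℕ) : ones A = ∑ i, (univ.filter fun j => A i j = 1).card := by
  unfold ones
  rw [card_filter, ← univ_product_univ, sum_product]
  exact sum_congr rfl fun i _ => by rw [card_filter]

theorem ones_cols (A : Matrix (Fin n) (Fin n) ℕ) : ones A = ∑ j, (univ.filter fun i => A i j = 1).card := by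
  unfold ones
  rw [card_filter, ← univ_product_univ, sum_product_right]
  exact sum_congr rfl fun i _ => by rw [card_filter]

theorem E2_gr (A : Matrix (Fin n) (Fin n) ℕ) (h4 : C4Free A) : (gr A h4).E2 univ = 2 * ones A := by
  unfold BG.E2
  rw [Fintype.sum_sum_type]
  simp only [deg_inl, deg_inr]
  rw [← ones_rows, ← ones_cols]
  ring

/-- the matching of a permutation -/
def mat (σ : Equiv.Perm (Fin n)) : Equiv.Perm (Fin n ⊕ Fin n) where
  toFun x := match x with
    | Sum.inl i => Sum.inr (σ.symm i)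
    | Sum.inr j => Sum.inl (σ j)
  invFun x := match x with
    | Sum.inl i => Sum.inr (σ.symm i)
    | Sum.inr j => Sum.inl (σ j)
  left_inv := by rintro (i | j) <;> simp
  right_inv := by rintro (i | j) <;> simp

theorem perm_le (A : Matrix (Fin n) (Fin n) ℕ) (h01 : ZeroOne A) (h4 : C4Free A) :
    A.permanent ≤ (gr A h4).pm univ := by
  have h1 : A.permanent = (univ.filter fun σ : Equiv.Perm (Fin n) => ∀ i, A (σ i) i = 1).card := by
    unfold Matrix.permanent
    rw [card_filter]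
    refine sum_congr rfl fun σ _ => ?_
    by_cases h : ∀ i, A (σ i) i = 1
    · rw [if_pos h]
      exact prod_eq_one fun i _ => h i
    · rw [if_neg h]
      push Not at h
      obtain ⟨i, hi⟩ := h
      refine prod_eq_zero (mem_univ i) ?_
      rcases h01 (σ i) i with h2 | h2
      · exact h2
      · exact absurd h2 hi
  rw [h1]
  unfold BG.pm
  refine card_le_card_of_injOn mat ?_ ?_
  · intro σ hσ
    simp only [coe_filter, mem_univ, true_and, Set.mem_ofPred_eq] at hσ
    simp only [BG.PM, coe_filter, mem_univ, true_and, Set.mem_ofPred_eq]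
    refine ⟨?_, ?_, fun x hx => absurd trivial hx⟩
    · rintro (i | j)
      · simp [mat]
      · simp [mat]
    · rintro (i | j) -
      · have := hσ (σ.symm i)
        rw [Equiv.apply_symm_apply] at this
        exact (gr_adj_lr A h4 i (σ.symm i)).2 this
      · exact (gr_adj_rl A h4 (σ j) j).2 (hσ j)
  · intro σ _ τ _ h
    ext j
    have h2 : mat σ (Sum.inr j) = mat τ (Sum.inr j) := by rw [h]
    simp only [mat, Equiv.coe_fn_mk, Sum.inl.injEq] at h2
    rw [h2]

theorem bound_of_F {m e p : ℕ} {c : ℝ} (h : (p : ℝ) * (2 : ℝ) ^ ((((2 * m : ℕ) : ℝ) - ((2 * e : ℕ) : ℝ)) / 6) ≤ c) : (p : ℝ) ^ 3 * 2 ^ m ≤ c ^ 3 * 2 ^ e := by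
  set x : ℝ := (2 : ℝ) ^ ((((2 * m : ℕ) : ℝ) - ((2 * e : ℕ) : ℝ)) / 6) with hx
  have hx3 : x ^ 3 * 2 ^ e = 2 ^ m := by
    rw [hx, ← Real.rpow_natCast, ← Real.rpow_mul (by norm_num), ← Real.rpow_natCast, ← Real.rpow_natCast,
      ← Real.rpow_add (by norm_num)]
    congr 1
    push_cast
    ring
  have hx0 : 0 ≤ x := Real.rpow_nonneg (by norm_num) _
  have h1 : ((p : ℝ) * x) ^ 3 ≤ c ^ 3 := pow_le_pow_left₀ (by positivity) h 3
  calc (p : ℝ) ^ 3 * 2 ^ m = ((p : ℝ) * x) ^ 3 * 2 ^ e := by rw [mul_pow, mul_assoc, hx3]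
    _ ≤ c ^ 3 * 2 ^ e := mul_le_mul_of_nonneg_right h1 (by positivity)

theorem perm_bound (A : Matrix (Fin n) (Fin n) ℕ) (h01 : ZeroOne A) (h4 : C4Free A) :
    A.permanent ^ 3 * 2 ^ n ≤ 2 ^ ones A := by
  have h1 := (BG.main (gr A h4) _ univ rfl).1
  unfold BG.F at h1
  rw [E2_gr, card_univ, Fintype.card_sum, Fintype.card_fin, ← two_mul] at h1
  have h2 := bound_of_F h1
  have h3 := perm_le A h01 h4
  have h4' : (((gr A h4).pm univ) ^ 3 * 2 ^ n : ℕ) ≤ 2 ^ ones A := by
    rw [one_pow, one_mul] at h2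
    exact_mod_cast h2
  exact (Nat.mul_le_mul_right _ (Nat.pow_le_pow_left h3 3)).trans h4'

theorem perm_bound_three (A : Matrix (Fin n) (Fin n) ℕ) (h01 : ZeroOne A) (h4 : C4Free A)
    (h3 : (∃ i, 3 ≤ (univ.filter fun j => A i j = 1).card) ∨ ∃ j, 3 ≤ (univ.filter fun i => A i j = 1).card) :
    A.permanent ^ 3 * 2 ^ (n + 5) ≤ 27 * 2 ^ ones A := by
  have hex : ∃ w ∈ (univ : Finset (Fin n ⊕ Fin n)), 3 ≤ (gr A h4).deg univ w := by
    rcases h3 with ⟨i, hi⟩ | ⟨j, hj⟩
    · exact ⟨Sum.inl i, mem_univ _, by rw [deg_inl]; exact hi⟩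
    · exact ⟨Sum.inr j, mem_univ _, by rw [deg_inr]; exact hj⟩
  have h1 := (BG.main (gr A h4) _ univ rfl).2.2 hex
  unfold BG.F at h1
  rw [E2_gr, card_univ, Fintype.card_sum, Fintype.card_fin, ← two_mul] at h1
  have h2 := bound_of_F h1
  have h5 : (3 * yy ^ 5) ^ 3 = 27 / 32 := by
    have : (3 * yy ^ 5) ^ 3 = 27 * (yy ^ 3) ^ 5 := by ring
    rw [this, yy_cube]
    norm_num
  rw [h5] at h2
  have h3' := perm_le A h01 h4
  have h4' : (((gr A h4).pm univ) ^ 3 * 2 ^ (n + 5) : ℕ) ≤ 27 * 2 ^ ones A := by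
    have : (((gr A h4).pm univ : ℝ)) ^ 3 * 2 ^ (n + 5) ≤ 27 * 2 ^ ones A := by
      rw [pow_add]
      nlinarith
    exact_mod_cast this
  exact (Nat.mul_le_mul_right _ (Nat.pow_le_pow_left h3' 3)).trans h4'

end Pool.Agent.CFree
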