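import Pool.Agent.Lib_MP_6af485_co.Tools

/-!
# MP_6af485_co: graphs with a vertex of degree two whose neighbours have degree at least three
-/

set_option autoImplicit false

namespace Pool.Agent.CFree

open Finset

theorem yy4 : yy ^ 4 = yy / 2 := by
  have : yy ^ 4 = yy ^ 3 * yy := by ring
  rw [this, yy_cube]; ring

theorem yy5 : yy ^ 5 = yy ^ 2 / 2 := by
  have : yy ^ 5 = yy ^ 3 * yy ^ 2 := by ring
  rw [this, yy_cube]; ring

theorem yy6 : yy ^ 6 = 1 / 4 := by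
  have : yy ^ 6 = yy ^ 3 * yy ^ 3 := by ring
  rw [this, yy_cube]; norm_num

theorem yy2_lt : yy ^ 2 < 6302 / 10000 := by nlinarith [yy_lt, yy_gt]

theorem yy2_gt : 6299 / 10000 < yy ^ 2 := by nlinarith [yy_lt, yy_gt]

variable {V : Type} [Fintype V] [DecidableEq V] {G : BG V}

theorem BG.two' {S : Finset V} {v a b : V} (hab : a ≠ b) (hN : G.N S v = {a, b}) (hv : v ∈ S) :
    G.F S = yy ^ (G.deg S a) * G.F (S \ {a, v}) + yy ^ (G.deg S b) * G.F (S \ {b, v}) := by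
  have h := BG.two (G := G) (S := S) (R := ∅) hab (by simpa using hN) hv (by simp)
  simpa using h

theorem BG.nbr2 {S : Finset V} {x a : V} (hd : G.deg S x = 2) (ha : a ∈ G.N S x) :
    ∃ z, z ≠ a ∧ G.N S x = {a, z} := by
  obtain ⟨p, q, hpq, h⟩ := card_eq_two.1 hd
  rw [h, mem_insert, mem_singleton] at ha
  rcases ha with rfl | rfl
  · exact ⟨q, hpq.symm, h⟩
  · exact ⟨p, hpq, by rw [h, pair_comm]⟩

theorem BG.nbr3 {S : Finset V} {x a : V} (hd : G.deg S x = 3) (ha : a ∈ G.N S x) :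
    ∃ z w, z ≠ w ∧ z ≠ a ∧ w ≠ a ∧ G.N S x = {a, z, w} := by
  have h1 : ((G.N S x).erase a).card = 2 := by
    have := card_erase_add_one ha
    unfold BG.deg at hd
    omega
  obtain ⟨p, q, hpq, h⟩ := card_eq_two.1 h1
  have hp : p ∈ (G.N S x).erase a := by rw [h]; simp
  have hq : q ∈ (G.N S x).erase a := by rw [h]; simp
  refine ⟨p, q, hpq, (mem_erase.1 hp).1, (mem_erase.1 hq).1, ?_⟩
  rw [← insert_erase ha, h]

/-- a neighbour of degree two of a removed vertex gives a forced edge -/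
theorem BG.FX {S : Finset V} (IH : ∀ T : Finset V, T.card < S.card → G.P T) (hmin : ∀ w ∈ S, 2 ≤ G.deg S w)
    {v a b x : V} (hab : a ≠ b) (hNv : G.N S v = {a, b}) (hx : x ∈ G.N S a) (hxv : x ≠ v)
    (hdx : G.deg S x = 2) : G.F (S \ {a, v}) ≤ yy := by
  obtain ⟨hxS, hax⟩ := BG.mem_N.1 hx
  obtain ⟨haS, hva⟩ := BG.mem_N.1 (show a ∈ G.N S v by rw [hNv]; simp)
  obtain ⟨hbS, hvb⟩ := BG.mem_N.1 (show b ∈ G.N S v by rw [hNv]; simp)
  obtain ⟨z, hza, hNx⟩ := BG.nbr2 hdx (BG.mem_N.2 ⟨haS, G.symm _ _ hax⟩)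
  obtain ⟨hzS, hxz⟩ := BG.mem_N.1 (show z ∈ G.N S x by rw [hNx]; simp)
  have hzb : z ≠ b := by
    rintro rfl
    exact hab (G.c4 x v a z hxv (G.symm _ _ hax) hva hxz hvb)
  have hzv : ¬ G.adj z v := by
    intro h
    have : z ∈ G.N S v := BG.mem_N.2 ⟨hzS, G.symm _ _ h⟩
    rw [hNv, mem_insert, mem_singleton] at this
    tauto
  have hza' : ¬ G.adj z a := BG.nadj_common hxz (G.symm _ _ hax)
  have hzv' : z ≠ v := by
    rintro rfl
    exact BG.nadj_common hax (G.symm _ _ hva) hxz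
  have hxa : x ≠ a := (BG.ne_of_adj hax).symm
  have hN : G.N (S \ {a, v}) x = {z} := by
    rw [BG.N_sdiff, hNx]
    grind
  have hd : G.deg (S \ {a, v}) z = G.deg S z := by
    apply BG.deg_sdiff_eq
    intro r hr
    rw [mem_insert, mem_singleton] at hr
    rcases hr with rfl | rfl
    · exact hza'
    · exact hzv
  have h2 := hmin z hzS
  have := BG.forced_le IH hN hxS (by grind) (k := 1) (by omega)
  simpa using this

/-- the vertex `a` of degree three becomes a good vertex of degree two after the removal of `v`, `b` -/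
theorem BG.FS {S : Finset V} (IH : ∀ T : Finset V, T.card < S.card → G.P T)
    {v a b x1 x2 : V} (hv : v ∈ S) (hab : a ≠ b) (hNv : G.N S v = {a, b}) (hNa : G.N S a = {v, x1, x2})
    (h12 : x1 ≠ x2) (h1v : x1 ≠ v) (h2v : x2 ≠ v) (hd1 : 3 ≤ G.deg S x1) (hd2 : 3 ≤ G.deg S x2) :
    G.F (S \ {b, v}) ≤ yy := by
  obtain ⟨haS, hva⟩ := BG.mem_N.1 (show a ∈ G.N S v by rw [hNv]; simp)
  obtain ⟨hbS, hvb⟩ := BG.mem_N.1 (show b ∈ G.N S v by rw [hNv]; simp)
  obtain ⟨h1S, ha1⟩ := BG.mem_N.1 (show x1 ∈ G.N S a by rw [hNa]; simp)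
  obtain ⟨h2S, ha2⟩ := BG.mem_N.1 (show x2 ∈ G.N S a by rw [hNa]; simp)
  have hab' : ¬ G.adj a b := BG.nadj_common hva hvb
  have h1b : x1 ≠ b := by rintro rfl; exact hab' ha1
  have h2b : x2 ≠ b := by rintro rfl; exact hab' ha2
  have hav : a ≠ v := (BG.ne_of_adj hva).symm
  have key : ∀ x, G.adj a x → x ≠ v → G.deg (S \ {b, v}) x = G.deg S x := by
    intro x hax hxv
    apply BG.deg_sdiff_eq
    intro r hr
    rw [mem_insert, mem_singleton] at hr
    rcases hr with rfl | rfl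
    · intro h
      exact hab (G.c4 x v a r hxv (G.symm _ _ hax) hva h hvb)
    · exact BG.nadj_common hax (G.symm _ _ hva)
  refine (IH (S \ {b, v}) (card_sdiff_lt hv (by simp))).2.1 a x1 x2 ?_ h12 ?_ ?_ ?_
  · simp only [mem_sdiff, mem_insert, mem_singleton]
    tauto
  · rw [BG.N_sdiff, hNa]
    grind
  · rw [key x1 ha1 h1v]; exact hd1
  · rw [key x2 ha2 h2v]; exact hd2

theorem BG.stepB_two {S : Finset V} (IH : ∀ T : Finset V, T.card < S.card → G.P T) (hmin : ∀ w ∈ S, 2 ≤ G.deg S w)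
    {v a b : V} (hv : v ∈ S) (hab : a ≠ b) (hNv : G.N S v = {a, b}) (hda : G.deg S a = 3) (hdb : 4 ≤ G.deg S b) :
    G.F S ≤ yy := by
  obtain ⟨haS, hva⟩ := BG.mem_N.1 (show a ∈ G.N S v by rw [hNv]; simp)
  obtain ⟨hbS, hvb⟩ := BG.mem_N.1 (show b ∈ G.N S v by rw [hNv]; simp)
  obtain ⟨x1, x2, h12, h1v, h2v, hNa⟩ := BG.nbr3 hda (BG.mem_N.2 ⟨hv, G.symm _ _ hva⟩)
  have h1S := (BG.mem_N.1 (show x1 ∈ G.N S a by rw [hNa]; simp)).1
  have h2S := (BG.mem_N.1 (show x2 ∈ G.N S a by rw [hNa]; simp)).1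
  rw [BG.two' hab hNv hv, hda]
  have hF1 := (IH (S \ {a, v}) (card_sdiff_lt hv (by simp)))
  have hF2 := (IH (S \ {b, v}) (card_sdiff_lt hv (by simp)))
  have n1 := G.F_nonneg (S \ {a, v})
  have n2 := G.F_nonneg (S \ {b, v})
  have p4 : yy ^ G.deg S b ≤ yy ^ 4 := yy_pow_le hdb
  have p0 : 0 ≤ yy ^ G.deg S b := pow_nonneg yy_pos.le _
  have hpos := yy_pos
  rw [yy_cube]
  by_cases hx : ∃ x ∈ G.N S a, x ≠ v ∧ G.deg S x = 2
  · obtain ⟨x, hx, hxv, hdx⟩ := hx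
    have h1 := BG.FX IH hmin hab hNv hx hxv hdx
    have h2 := hF2.1
    have h3 : yy ^ G.deg S b * G.F (S \ {b, v}) ≤ yy ^ 4 * 1 := mul_le_mul p4 h2 n2 (by positivity)
    rw [yy4] at h3
    linarith
  · have hx' : ∀ x ∈ G.N S a, x ≠ v → 3 ≤ G.deg S x := by
      intro x hx1 hxv
      by_contra hlt
      have := hmin x (BG.mem_N.1 hx1).1
      exact hx ⟨x, hx1, hxv, by omega⟩
    have h1 := BG.FS IH hv hab hNv hNa h12 h1v h2v (hx' x1 (by rw [hNa]; simp) h1v) (hx' x2 (by rw [hNa]; simp) h2v)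
    have hd : 3 ≤ G.deg (S \ {a, v}) b := by
      have := BG.deg_sdiff_ge (G := G) (S := S) (R := {a, v}) (w := b) (r0 := v) (by
        intro r hr hadj
        rw [mem_insert, mem_singleton] at hr
        rcases hr with rfl | rfl
        · exact absurd hadj (BG.nadj_common hvb hva)
        · rfl)
      omega
    have h2 := hF1.2.2 ⟨b, by
      simp only [mem_sdiff, mem_insert, mem_singleton]
      exact ⟨hbS, by
        rintro (h | h)
        · exact hab h.symm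
        · exact BG.ne_of_adj hvb h.symm⟩, hd⟩
    have h3 : yy ^ G.deg S b * G.F (S \ {b, v}) ≤ yy ^ 4 * yy := mul_le_mul p4 h1 n2 (by positivity)
    rw [yy4] at h3
    rw [yy5] at h2
    nlinarith [yy_lt, yy_gt]

end Pool.Agent.CFree
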