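import Pool.Agent.Lib_MP_6af485_co.StepB

/-!
# MP_6af485_co: the main case of the vertex of degree two
-/

set_option autoImplicit false

namespace Pool.Agent.CFree

open Finset

variable {V : Type} [Fintype V] [DecidableEq V] {G : BG V}

theorem BG.nbr3' {S : Finset V} {x a z : V} (hd : G.deg S x = 3) (ha : a ∈ G.N S x) (hz : z ∈ G.N S x) (hza : z ≠ a) :
    ∃ w, w ≠ z ∧ w ≠ a ∧ G.N S x = {a, z, w} := by
  obtain ⟨p, q, hpq, hpa, hqa, h⟩ := BG.nbr3 hd ha
  rw [h, mem_insert, mem_insert, mem_singleton] at hz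
  rcases hz with rfl | rfl | rfl
  · exact absurd rfl hza
  · exact ⟨q, hpq.symm, hqa, h⟩
  · exact ⟨p, hpq, hpa, by rw [h, pair_comm]⟩

/-- the combination of the two branches -/
theorem final_of {x F1 F2 : ℝ} (h : x = 1 / 2 * F1 + 1 / 2 * F2) (h12 : F1 + F2 ≤ 2 * yy) : x ≤ yy := by
  rw [h]; linarith

theorem BG.case3 {S : Finset V} (IH : ∀ T : Finset V, T.card < S.card → G.P T) (hmin : ∀ w ∈ S, 2 ≤ G.deg S w)
    {v a b y1 : V} (hv : v ∈ S) (hab : a ≠ b) (hNv : G.N S v = {a, b}) (hda : G.deg S a = 3) (hdb : G.deg S b = 3)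
    (ha3 : ∀ x ∈ G.N S a, x ≠ v → 3 ≤ G.deg S x) (hy : y1 ∈ G.N S b) (hyv : y1 ≠ v) (hdy : G.deg S y1 = 2) :
    G.F S ≤ yy := by
  have hpos := yy_pos
  have hlt := yy_lt
  have hgt := yy_gt
  have hlt2 := yy2_lt
  have hgt2 := yy2_gt
  obtain ⟨haS, hva⟩ := BG.mem_N.1 (show a ∈ G.N S v by rw [hNv]; simp)
  obtain ⟨hbS, hvb⟩ := BG.mem_N.1 (show b ∈ G.N S v by rw [hNv]; simp)
  obtain ⟨hyS, hby⟩ := BG.mem_N.1 hy
  obtain ⟨y2, hy21, hy2v, hNb⟩ := BG.nbr3' hdb (BG.mem_N.2 ⟨hv, G.symm _ _ hvb⟩) hy hyv
  obtain ⟨hy2S, hby2⟩ := BG.mem_N.1 (show y2 ∈ G.N S b by rw [hNb]; simp)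
  obtain ⟨z, hzb, hNy⟩ := BG.nbr2 hdy (BG.mem_N.2 ⟨hbS, G.symm _ _ hby⟩)
  obtain ⟨hzS, hyz⟩ := BG.mem_N.1 (show z ∈ G.N S y1 by rw [hNy]; simp)
  have hza : z ≠ a := by
    rintro rfl
    exact hab (G.c4 y1 v z b hyv hyz hva (G.symm _ _ hby) hvb)
  have hzv : ¬ G.adj z v := by
    intro h
    have : z ∈ G.N S v := BG.mem_N.2 ⟨hzS, G.symm _ _ h⟩
    rw [hNv, mem_insert, mem_singleton] at this
    tauto
  have hzb' : ¬ G.adj z b := BG.nadj_common hyz (G.symm _ _ hby)
  have hca : G.col a = G.col b := BG.col_common hva hvb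
  have hcy : G.col y1 = G.col v := BG.col_common hby (G.symm _ _ hvb)
  have hcy2 : G.col y2 = G.col v := BG.col_common hby2 (G.symm _ _ hvb)
  have hcz : G.col z = G.col b := BG.col_common hyz (G.symm _ _ hby)
  have hcvb : G.col v ≠ G.col b := G.bip _ _ hvb
  -- distinctness by colours
  have e1 : v ≠ b := fun e => hcvb (by rw [e])
  have e2 : v ≠ a := fun e => hcvb (by rw [e, hca])
  have e3 : v ≠ z := fun e => hcvb (by rw [e, hcz])
  have e4 : y1 ≠ b := fun e => hcvb (by rw [← hcy, e])
  have e5 : y1 ≠ a := fun e => hcvb (by rw [← hcy, e, hca])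
  have e6 : y1 ≠ z := fun e => hcvb (by rw [← hcy, e, hcz])
  have e7 : y2 ≠ b := fun e => hcvb (by rw [← hcy2, e])
  have e8 : y2 ≠ a := fun e => hcvb (by rw [← hcy2, e, hca])
  have e9 : y2 ≠ z := fun e => hcvb (by rw [← hcy2, e, hcz])
  -- non adjacency of y2
  have hy2a : ¬ G.adj y2 a := fun h => hab (G.c4 y2 v a b hy2v h hva (G.symm _ _ hby2) hvb)
  have hy2z : ¬ G.adj y2 z := fun h => hzb (G.c4 y2 y1 z b hy21 h hyz (G.symm _ _ hby2) (G.symm _ _ hby))
  have hFS : G.F S = 1 / 2 * G.F (S \ {a, v}) + 1 / 2 * G.F (S \ {b, v}) := by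
    rw [BG.two' hab hNv hv, hda, hdb, yy_cube]
  have hF1 := (IH (S \ {a, v}) (card_sdiff_lt hv (by simp)))
  have hF2 := (IH (S \ {b, v}) (card_sdiff_lt hv (by simp)))
  have hN2y : G.N (S \ {b, v}) y1 = {z} := by
    rw [BG.N_sdiff, hNy]
    clear * - hzb e3
    grind
  have hd2z : G.deg (S \ {b, v}) z = G.deg S z := by
    apply BG.deg_sdiff_eq
    intro r hr
    rw [mem_insert, mem_singleton] at hr
    rcases hr with rfl | rfl
    · exact hzb'
    · exact hzv
  have hd1z : G.deg (S \ {a, v}) z = G.deg S z := by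
    apply BG.deg_sdiff_eq
    intro r hr
    rw [mem_insert, mem_singleton] at hr
    rcases hr with rfl | rfl
    · exact BG.nadj_col (by rw [hcz, hca])
    · exact hzv
  have hyR : y1 ∉ ({b, v} : Finset V) := by simp only [mem_insert, mem_singleton]; tauto
  by_cases hdz : 3 ≤ G.deg S z
  · -- `z` has degree at least three
    have h2 := BG.forced_le IH hN2y hyS hyR (k := 2) (by omega)
    have h1 := hF1.2.2 ⟨z, by simp only [mem_sdiff, mem_insert, mem_singleton]; tauto, by omega⟩
    refine final_of hFS ?_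
    rw [yy5] at h1
    linarith
  have hdz2 : G.deg S z = 2 := by
    have := hmin z hzS
    omega
  obtain ⟨t, hty, hNz⟩ := BG.nbr2 hdz2 (BG.mem_N.2 ⟨hyS, G.symm _ _ hyz⟩)
  obtain ⟨htS, hzt⟩ := BG.mem_N.1 (show t ∈ G.N S z by rw [hNz]; simp)
  have hct : G.col t = G.col v := by rw [BG.col_common hzt (G.symm _ _ hyz), hcy]
  have htv : t ≠ v := by rintro rfl; exact hzv hzt
  have htb : ¬ G.adj t b := fun h => hzb (G.c4 t y1 z b hty (G.symm _ _ hzt) hyz h (G.symm _ _ hby))
  have hty2 : t ≠ y2 := by rintro rfl; exact htb (G.symm _ _ hby2)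
  have f1 : t ≠ b := fun e => hcvb (by rw [← hct, e])
  have f2 : t ≠ a := fun e => hcvb (by rw [← hct, e, hca])
  have f3 : t ≠ z := fun e => hcvb (by rw [← hct, e, hcz])
  -- the second branch after the forced edge
  have hF2' : G.F (S \ {b, v}) = yy * G.F (S \ {z, y1, b, v}) := by
    rw [BG.forced hN2y hyS hyR, hd2z, hdz2]
    simp
  have hF3 := (IH (S \ {z, y1, b, v}) (card_sdiff_lt hv (by simp)))
  -- neighbours of a
  have hNa0 : ∀ x, x ∈ G.N S a → x ≠ v → G.adj a x ∧ x ∈ S ∧ G.col x = G.col v ∧ ¬ G.adj x b ∧ 3 ≤ G.deg S x ∧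
      x ≠ y1 ∧ x ≠ z ∧ x ≠ b := by
    intro x hx hxv
    obtain ⟨hxS, hax⟩ := BG.mem_N.1 hx
    have hcx : G.col x = G.col v := BG.col_common hax (G.symm _ _ hva)
    have hxb : ¬ G.adj x b := fun h => hab (G.c4 x v a b hxv (G.symm _ _ hax) hva h hvb)
    have hd := ha3 x hx hxv
    refine ⟨hax, hxS, hcx, hxb, hd, ?_, ?_, ?_⟩
    · rintro rfl; omega
    · rintro rfl; omega
    · intro e; exact hcvb (by rw [← hcx, e])
  have hdeg3 : ∀ x, x ∈ G.N S a → x ≠ v → x ≠ t → G.deg (S \ {z, y1, b, v}) x = G.deg S x := by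
    intro x hx hxv hxt
    obtain ⟨hax, hxS, hcx, hxb, hd, g1, g2, g3⟩ := hNa0 x hx hxv
    apply BG.deg_sdiff_eq
    intro r hr
    rw [mem_insert, mem_insert, mem_insert, mem_singleton] at hr
    rcases hr with rfl | rfl | rfl | rfl
    · intro h
      have : x ∈ G.N S r := BG.mem_N.2 ⟨hxS, G.symm _ _ h⟩
      rw [hNz, mem_insert, mem_singleton] at this
      tauto
    · exact BG.nadj_col (by rw [hcx, hcy])
    · exact hxb
    · exact BG.nadj_col hcx
  have hN1y : G.N (S \ {a, v}) y1 = {z, b} := by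
    rw [BG.N_sdiff, hNy]
    clear * - hza e1 e3 hab
    grind
  have hN1z : G.N (S \ {a, v}) z = {y1, t} := by
    rw [BG.N_sdiff, hNz]
    clear * - hyv e5 f2 htv
    grind
  have hd1b : G.deg (S \ {a, v}) b = 2 := by
    unfold BG.deg
    rw [BG.N_sdiff, hNb]
    have : ({v, y1, y2} : Finset V) \ {a, v} = {y1, y2} := by
      clear * - hyv e5 e8 hy2v
      grind
    rw [this, card_pair hy21.symm]
  have hyR1 : y1 ∉ ({a, v} : Finset V) := by simp only [mem_insert, mem_singleton]; tauto
  have hzR1 : z ∉ ({a, v} : Finset V) := by simp only [mem_insert, mem_singleton]; tauto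
  have hpair1 := BG.pair hN1y hN1z hzb hty.symm hyS hyR1 hzS hzR1
  rw [hd1b] at hpair1
  have hbU0 : b ∉ ({z, y1, a, v} : Finset V) := by simp only [mem_insert, mem_singleton]; tauto
  have hdy2 := hmin y2 hy2S
  by_cases hta : t ∈ G.N S a
  · -- `t` is a neighbour of `a`
    obtain ⟨x, hxt, hxv, hNa⟩ := BG.nbr3' hda (BG.mem_N.2 ⟨hv, G.symm _ _ hva⟩) hta htv
    obtain ⟨hat, -, -, -, hdt, -, -, -⟩ := hNa0 t hta htv
    obtain ⟨hax, hxS, hcx, hxb, hdx, g1, g2, g3⟩ := hNa0 x (by rw [hNa]; simp) hxv
    have hN3a : G.N (S \ {z, y1, b, v}) a = {t, x} := by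
      rw [BG.N_sdiff, hNa]
      clear * - hty f1 f3 htv g1 g2 g3 hxv
      grind
    have hd3x := hdeg3 x (by rw [hNa]; simp) hxv hxt
    have haR3 : a ∉ ({z, y1, b, v} : Finset V) := by simp only [mem_insert, mem_singleton]; tauto
    by_cases hdt4 : 4 ≤ G.deg S t
    · have hd3t : 3 ≤ G.deg (S \ {z, y1, b, v}) t := by
        have := BG.deg_sdiff_ge (G := G) (S := S) (R := {z, y1, b, v}) (w := t) (r0 := z) (by
          intro r hr hadj
          rw [mem_insert, mem_insert, mem_insert, mem_singleton] at hr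
          rcases hr with rfl | rfl | rfl | rfl
          · rfl
          · exact absurd hadj (BG.nadj_col (by rw [hct, hcy]))
          · exact absurd hadj htb
          · exact absurd hadj (BG.nadj_col hct))
        omega
      have h3 := hF3.2.1 a t x (by simp only [mem_sdiff]; exact ⟨haS, haR3⟩) hxt.symm hN3a hd3t (by omega)
      have hd1t : 3 ≤ G.deg (S \ {a, v}) t := by
        have := BG.deg_sdiff_ge (G := G) (S := S) (R := {a, v}) (w := t) (r0 := a) (by
          intro r hr hadj
          rw [mem_insert, mem_singleton] at hr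
          rcases hr with rfl | rfl
          · rfl
          · exact absurd hadj (BG.nadj_col hct))
        omega
      have h1 := hF1.2.2 ⟨t, by simp only [mem_sdiff, mem_insert, mem_singleton]; tauto, hd1t⟩
      refine final_of hFS ?_
      rw [hF2']
      rw [yy5] at h1
      nlinarith
    -- `t` has degree three
    have hdt3 : G.deg S t = 3 := by omega
    obtain ⟨w, hwz, hwa, hNt⟩ := BG.nbr3' hdt3 (BG.mem_N.2 ⟨haS, G.symm _ _ hat⟩) (BG.mem_N.2 ⟨hzS, G.symm _ _ hzt⟩) hza
    obtain ⟨hwS, htw⟩ := BG.mem_N.1 (show w ∈ G.N S t by rw [hNt]; simp)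
    have hcw : G.col w = G.col b := by rw [BG.col_common htw (G.symm _ _ hzt), hcz]
    have hwb : w ≠ b := by rintro rfl; exact htb htw
    have hwv' : ¬ G.adj w v := by
      intro h
      have : w ∈ G.N S v := BG.mem_N.2 ⟨hwS, G.symm _ _ h⟩
      rw [hNv, mem_insert, mem_singleton] at this
      tauto
    have hwy' : ¬ G.adj w y1 := by
      intro h
      have : w ∈ G.N S y1 := BG.mem_N.2 ⟨hwS, G.symm _ _ h⟩
      rw [hNy, mem_insert, mem_singleton] at this
      tauto
    have k1 : w ≠ v := fun e => hcvb (by rw [← e, hcw])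
    have k2 : w ≠ y1 := fun e => hcvb (by rw [← hcy, ← e, hcw])
    have k3 : w ≠ y2 := fun e => hcvb (by rw [← hcy2, ← e, hcw])
    have k4 : w ≠ t := fun e => hcvb (by rw [← hct, ← e, hcw])
    have hdw := hmin w hwS
    have hd1t : G.deg (S \ {a, v}) t = 2 := by
      unfold BG.deg
      rw [BG.N_sdiff, hNt]
      have : ({a, z, w} : Finset V) \ {a, v} = {z, w} := by
        clear * - hza e3 hwa k1
        grind
      rw [this, card_pair hwz.symm]
    rw [hd1t] at hpair1
    -- `U0`
    have hN0t : G.N (S \ {z, y1, a, v}) t = {w} := by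
      rw [BG.N_sdiff, hNt]
      clear * - hwz hwa k1 k2
      grind
    have htU0 : t ∉ ({z, y1, a, v} : Finset V) := by simp only [mem_insert, mem_singleton]; tauto
    have hd0w : G.deg (S \ {z, y1, a, v}) w = G.deg S w := by
      apply BG.deg_sdiff_eq
      intro r hr
      rw [mem_insert, mem_insert, mem_insert, mem_singleton] at hr
      rcases hr with rfl | rfl | rfl | rfl
      · exact BG.nadj_col (by rw [hcw, hcz])
      · exact hwy'
      · exact BG.nadj_col (by rw [hcw, hca])
      · exact hwv'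
    have hU0 : G.F (S \ {z, y1, a, v}) = yy ^ (G.deg S w - 1) * G.F (S \ {w, t, z, y1, a, v}) := by
      rw [BG.forced hN0t htS htU0, hd0w]
    -- `U1`
    have hN1b : G.N (S \ {w, t, z, y1, a, v}) b = {y2} := by
      rw [BG.N_sdiff, hNb]
      clear * - hy21 hy2v k3 hty2 e9 e8
      grind
    have hbU1 : b ∉ ({w, t, z, y1, a, v} : Finset V) := by simp only [mem_insert, mem_singleton]; tauto
    have hy2U1 : ∀ r ∈ ({w, t, z, y1, a, v} : Finset V), G.adj y2 r → r = w := by
      intro r hr hadj
      simp only [mem_insert, mem_singleton] at hr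
      rcases hr with rfl | rfl | rfl | rfl | rfl | rfl
      · rfl
      · exact absurd hadj (BG.nadj_col (by rw [hcy2, hct]))
      · exact absurd hadj hy2z
      · exact absurd hadj (BG.nadj_col (by rw [hcy2, hcy]))
      · exact absurd hadj hy2a
      · exact absurd hadj (BG.nadj_col hcy2)
    have hU1n := G.F_nonneg (S \ {w, t, z, y1, a, v})
    have hU1o := (IH (S \ {w, t, z, y1, a, v}) (card_sdiff_lt hv (by simp))).1
    have hT1n := G.F_nonneg (S \ {t, z, b, y1, a, v})
    have hT1o := (IH (S \ {t, z, b, y1, a, v}) (card_sdiff_lt hv (by simp))).1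
    have hd3w : G.deg (S \ {z, y1, b, v}) w = G.deg S w := by
      apply BG.deg_sdiff_eq
      intro r hr
      rw [mem_insert, mem_insert, mem_insert, mem_singleton] at hr
      rcases hr with rfl | rfl | rfl | rfl
      · exact BG.nadj_col (by rw [hcw, hcz])
      · exact hwy'
      · exact BG.nadj_col hcw
      · exact hwv'
    by_cases hdy22 : G.deg S y2 = 2
    · -- `y2` has degree two
      obtain ⟨w2, hw2b, hNy2⟩ := BG.nbr2 hdy22 (BG.mem_N.2 ⟨hbS, G.symm _ _ hby2⟩)
      obtain ⟨hw2S, hy2w2⟩ := BG.mem_N.1 (show w2 ∈ G.N S y2 by rw [hNy2]; simp)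
      have hcw2 : G.col w2 = G.col b := BG.col_common hy2w2 (G.symm _ _ hby2)
      have l1 : w2 ≠ z := by rintro rfl; exact hy2z hy2w2
      have l2 : w2 ≠ y1 := fun e => hcvb (by rw [← hcy, ← e, hcw2])
      have l3 : w2 ≠ v := fun e => hcvb (by rw [← e, hcw2])
      have l4 : w2 ≠ a := by rintro rfl; exact hy2a hy2w2
      have hN3y2 : G.N (S \ {z, y1, b, v}) y2 = {w2} := by
        rw [BG.N_sdiff, hNy2]
        clear * - hw2b l1 l2 l3
        grind
      have hy2R3 : y2 ∉ ({z, y1, b, v} : Finset V) := by simp only [mem_insert, mem_singleton]; tauto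
      have hd3w2 : G.deg (S \ {z, y1, b, v}) w2 = G.deg S w2 := by
        apply BG.deg_sdiff_eq
        intro r hr
        rw [mem_insert, mem_insert, mem_insert, mem_singleton] at hr
        rcases hr with rfl | rfl | rfl | rfl
        · exact BG.nadj_col (by rw [hcw2, hcz])
        · intro h
          have : w2 ∈ G.N S r := BG.mem_N.2 ⟨hw2S, G.symm _ _ h⟩
          rw [hNy, mem_insert, mem_singleton] at this
          tauto
        · exact BG.nadj_col hcw2
        · intro h
          have : w2 ∈ G.N S r := BG.mem_N.2 ⟨hw2S, G.symm _ _ h⟩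
          rw [hNv, mem_insert, mem_singleton] at this
          tauto
      have hdw2 := hmin w2 hw2S
      have h3 := BG.forced_le IH hN3y2 hy2S hy2R3 (k := 1) (by omega)
      rw [pow_one] at h3
      by_cases hww : w2 = w
      · -- closing
        subst hww
        by_cases hdw3 : 3 ≤ G.deg S w2
        · have h0 : G.F (S \ {z, y1, a, v}) ≤ yy ^ 2 := by
            rw [hU0]
            have h5 : yy ^ (G.deg S w2 - 1) ≤ yy ^ 2 := yy_pow_le (by omega)
            have h6 : 0 ≤ yy ^ (G.deg S w2 - 1) := pow_nonneg hpos.le _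
            nlinarith
          refine final_of hFS ?_
          rw [hpair1, hF2', show 2 + 2 - 1 = 3 from rfl, yy_cube]
          nlinarith
        · have hdw2' : G.deg S w2 = 2 := by omega
          have hV : G.F (S \ {z, y1, b, v}) = yy * G.F (S \ {w2, y2, z, y1, b, v}) := by
            rw [BG.forced hN3y2 hy2S hy2R3, hd3w2, hdw2']
            simp
          have hNVt : G.N (S \ {w2, y2, z, y1, b, v}) t = {a} := by
            rw [BG.N_sdiff, hNt]
            clear * - hza hab e2 e5 e8 l4
            grind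
          have hdVa : G.deg (S \ {w2, y2, z, y1, b, v}) a = 2 := by
            unfold BG.deg
            rw [BG.N_sdiff, hNa]
            have : ({v, t, x} : Finset V) \ {w2, y2, z, y1, b, v} = {t, x} := by
              have m1 : x ≠ y2 := by
                rintro rfl
                exact hxb (G.symm _ _ hby2)
              have m2 : x ≠ w2 := by
                intro e
                exact hcvb (by rw [← hcx, e, hcw2])
              clear * - hty f1 f3 htv g1 g2 g3 hxv k4 hty2 m1 m2
              grind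
            rw [this, card_pair hxt.symm]
          have htV : t ∉ ({w2, y2, z, y1, b, v} : Finset V) := by
            simp only [mem_insert, mem_singleton]
            tauto
          have h5 := BG.forced_le IH hNVt htS htV (k := 1) (by omega)
          rw [pow_one] at h5
          refine final_of hFS ?_
          rw [hF2', hV]
          have h6 := hF1.1
          have h7 : yy * (yy * G.F (S \ {w2, y2, z, y1, b, v})) ≤ yy * (yy * yy) := by
            have := mul_le_mul_of_nonneg_left h5 hpos.le
            exact mul_le_mul_of_nonneg_left this hpos.le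
          have h8 : yy * (yy * yy) = 1 / 2 := by rw [← yy_cube]; ring
          linarith
      · -- `y2` not adjacent to `w`
        have hd1y2 : G.deg (S \ {w, t, z, y1, a, v}) y2 = G.deg S y2 := by
          apply BG.deg_sdiff_eq
          intro r hr hadj
          have h5 := hy2U1 r hr hadj
          subst h5
          have : r ∈ G.N S y2 := BG.mem_N.2 ⟨hwS, hadj⟩
          rw [hNy2, mem_insert, mem_singleton] at this
          rcases this with h | h
          · exact hwb h
          · exact hww h.symm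
        have h1 := BG.forced_le IH hN1b hbS hbU1 (k := 1) (by omega)
        rw [pow_one] at h1
        have h0 : G.F (S \ {z, y1, a, v}) ≤ yy ^ 2 := by
          rw [hU0]
          have h5 : yy ^ (G.deg S w - 1) ≤ yy ^ 1 := yy_pow_le (by omega)
          have h6 : 0 ≤ yy ^ (G.deg S w - 1) := pow_nonneg hpos.le _
          rw [pow_one] at h5
          nlinarith
        refine final_of hFS ?_
        rw [hpair1, hF2', show 2 + 2 - 1 = 3 from rfl, yy_cube]
        nlinarith
    · -- `y2` has degree at least three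
      have hdy23 : 3 ≤ G.deg S y2 := by omega
      have hd1y2 := BG.deg_sdiff_ge hy2U1 (S := S)
      have h1 := BG.forced_le IH hN1b hbS hbU1 (k := 1) (by omega)
      rw [pow_one] at h1
      -- second branch
      have hN3t : G.N (S \ {z, y1, b, v}) t = {a, w} := by
        rw [BG.N_sdiff, hNt]
        clear * - hza hab e2 e5 hwz hwb k1 k2
        grind
      have htR3 : t ∉ ({z, y1, b, v} : Finset V) := by simp only [mem_insert, mem_singleton]; tauto
      have hpair3 := BG.pair hN3a hN3t hxt.symm hwa.symm haS haR3 htS htR3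
      rw [hd3x, hd3w] at hpair3
      have hV0n := G.F_nonneg (S \ {t, a, z, y1, b, v})
      have hV0o := (IH (S \ {t, a, z, y1, b, v}) (card_sdiff_lt hv (by simp))).1
      have hV1n := G.F_nonneg (S \ {w, t, x, a, z, y1, b, v})
      have hV1o := (IH (S \ {w, t, x, a, z, y1, b, v}) (card_sdiff_lt hv (by simp))).1
      by_cases hdw3 : 3 ≤ G.deg S w
      · have h0 : G.F (S \ {z, y1, a, v}) ≤ yy ^ 3 := by
          rw [hU0]
          have h5 : yy ^ (G.deg S w - 1) ≤ yy ^ 2 := yy_pow_le (by omega)
          have h6 : 0 ≤ yy ^ (G.deg S w - 1) := pow_nonneg hpos.le _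
          have h7 : yy ^ (G.deg S w - 1) * G.F (S \ {w, t, z, y1, a, v}) ≤ yy ^ 2 * yy :=
            mul_le_mul h5 h1 hU1n (by positivity)
          calc _ ≤ _ := h7
            _ = yy ^ 3 := by ring
        rw [yy_cube] at h0
        have h8 : yy ^ (G.deg S x + G.deg S w - 1) ≤ yy ^ 5 := yy_pow_le (by omega)
        have h9 : 0 ≤ yy ^ (G.deg S x + G.deg S w - 1) := pow_nonneg hpos.le _
        rw [yy5] at h8
        have h10 : G.F (S \ {z, y1, b, v}) ≤ yy ^ 2 + yy ^ 2 / 2 := by
          rw [hpair3]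
          have h11 : yy ^ (G.deg S x + G.deg S w - 1) * G.F (S \ {w, t, x, a, z, y1, b, v}) ≤ (yy ^ 2 / 2) * 1 :=
            mul_le_mul h8 hV1o hV1n (by positivity)
          nlinarith
        refine final_of hFS ?_
        rw [hpair1, hF2', show 2 + 2 - 1 = 3 from rfl, yy_cube]
        have h12 : yy * G.F (S \ {z, y1, b, v}) ≤ yy * (yy ^ 2 + yy ^ 2 / 2) := mul_le_mul_of_nonneg_left h10 hpos.le
        have h13 : yy * (yy ^ 2 + yy ^ 2 / 2) = 3 / 4 := by
          have : yy * (yy ^ 2 + yy ^ 2 / 2) = yy ^ 3 * (3 / 2) := by ring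
          rw [this, yy_cube]; norm_num
        nlinarith
      · have hdw2' : G.deg S w = 2 := by omega
        obtain ⟨w', hw't, hNw⟩ := BG.nbr2 hdw2' (BG.mem_N.2 ⟨htS, G.symm _ _ htw⟩)
        obtain ⟨hw'S, hww'⟩ := BG.mem_N.1 (show w' ∈ G.N S w by rw [hNw]; simp)
        have hcw' : G.col w' = G.col v := by rw [BG.col_common hww' (G.symm _ _ htw), hct]
        have l1 : w' ≠ v := by rintro rfl; exact hwv' hww'
        have l2 : w' ≠ y1 := by rintro rfl; exact hwy' hww'
        have l3 : w' ≠ a := fun e => hcvb (by rw [← hcw', e, hca])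
        have l4 : w' ≠ b := fun e => hcvb (by rw [← hcw', e])
        have l5 : w' ≠ z := fun e => hcvb (by rw [← hcw', e, hcz])
        have hw'a : ¬ G.adj w' a := fun h => hwa (G.c4 w' t w a hw't (G.symm _ _ hww') htw h (G.symm _ _ hat))
        have hw'z : ¬ G.adj w' z := fun h => hwz (G.c4 w' t w z hw't (G.symm _ _ hww') htw h (G.symm _ _ hzt))
        have hgen : ∀ R : Finset V, (∀ r ∈ R, r = v ∨ r = a ∨ r = b ∨ r = y1 ∨ r = z ∨ r = t) →
            2 ≤ G.deg (S \ R) w' := by
          intro R hR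
          by_cases hwy2 : w' = y2
          · subst hwy2
            have := BG.deg_sdiff_ge (G := G) (S := S) (R := R) (w := w') (r0 := b) (by
              intro r hr hadj
              rcases hR r hr with rfl | rfl | rfl | rfl | rfl | rfl
              · exact absurd hadj (BG.nadj_col hcw')
              · exact absurd hadj hw'a
              · rfl
              · exact absurd hadj (BG.nadj_col (by rw [hcw', hcy]))
              · exact absurd hadj hw'z
              · exact absurd hadj (BG.nadj_col (by rw [hcw', hct])))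
            omega
          · rw [BG.deg_sdiff_eq]
            · exact hmin w' hw'S
            · intro r hr
              rcases hR r hr with rfl | rfl | rfl | rfl | rfl | rfl
              · exact BG.nadj_col hcw'
              · exact hw'a
              · intro h
                have : w' ∈ G.N S r := BG.mem_N.2 ⟨hw'S, G.symm _ _ h⟩
                rw [hNb, mem_insert, mem_insert, mem_singleton] at this
                tauto
              · exact BG.nadj_col (by rw [hcw', hcy])
              · exact hw'z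
              · exact BG.nadj_col (by rw [hcw', hct])
        have hNT : G.N (S \ {t, z, b, y1, a, v}) w = {w'} := by
          rw [BG.N_sdiff, hNw]
          clear * - hw't l1 l2 l3 l4 l5
          grind
        have hNV : G.N (S \ {t, a, z, y1, b, v}) w = {w'} := by
          rw [BG.N_sdiff, hNw]
          clear * - hw't l1 l2 l3 l4 l5
          grind
        have hT := BG.forced_le IH hNT hwS (by simp only [mem_insert, mem_singleton]; tauto) (k := 1)
          (hgen _ (by intro r hr; simp only [mem_insert, mem_singleton] at hr; tauto))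
        have hV := BG.forced_le IH hNV hwS (by simp only [mem_insert, mem_singleton]; tauto) (k := 1)
          (hgen _ (by intro r hr; simp only [mem_insert, mem_singleton] at hr; tauto))
        rw [pow_one] at hT hV
        have h0 : G.F (S \ {z, y1, a, v}) ≤ yy ^ 2 := by
          rw [hU0, hdw2', show 2 - 1 = 1 from rfl, pow_one]
          nlinarith
        have h8 : yy ^ (G.deg S x + G.deg S w - 1) ≤ yy ^ 4 := yy_pow_le (by omega)
        have h9 : 0 ≤ yy ^ (G.deg S x + G.deg S w - 1) := pow_nonneg hpos.le _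
        rw [yy4] at h8
        have h10 : G.F (S \ {z, y1, b, v}) ≤ yy ^ 2 * yy + yy / 2 := by
          rw [hpair3]
          have h11 : yy ^ (G.deg S x + G.deg S w - 1) * G.F (S \ {w, t, x, a, z, y1, b, v}) ≤ (yy / 2) * 1 :=
            mul_le_mul h8 hV1o hV1n (by positivity)
          have h12 : yy ^ 2 * G.F (S \ {t, a, z, y1, b, v}) ≤ yy ^ 2 * yy :=
            mul_le_mul_of_nonneg_left hV (by positivity)
          linarith
        have h13 : yy ^ 2 * yy = 1 / 2 := by rw [← yy_cube]; ring
        refine final_of hFS ?_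
        rw [hpair1, hF2', show 2 + 2 - 1 = 3 from rfl, yy_cube]
        have h14 : yy * G.F (S \ {z, y1, b, v}) ≤ yy * (yy ^ 2 * yy + yy / 2) := mul_le_mul_of_nonneg_left h10 hpos.le
        have h15 : yy ^ 2 * G.F (S \ {z, y1, a, v}) ≤ yy ^ 2 * yy ^ 2 := mul_le_mul_of_nonneg_left h0 (by positivity)
        have h16 : yy ^ 2 * yy ^ 2 = yy / 2 := by rw [← yy4]; ring
        rw [h13] at h14
        nlinarith
  · -- `t` is not a neighbour of `a`
    obtain ⟨x1, x2, h12, h1v, h2v, hNa⟩ := BG.nbr3 hda (BG.mem_N.2 ⟨hv, G.symm _ _ hva⟩)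
    have h1t : x1 ≠ t := by rintro rfl; exact hta (by rw [hNa]; simp)
    have h2t : x2 ≠ t := by rintro rfl; exact hta (by rw [hNa]; simp)
    obtain ⟨hax1, -, -, -, hdx1, g1, g2, g3⟩ := hNa0 x1 (by rw [hNa]; simp) h1v
    obtain ⟨hax2, -, -, -, hdx2, g4, g5, g6⟩ := hNa0 x2 (by rw [hNa]; simp) h2v
    have hN3a : G.N (S \ {z, y1, b, v}) a = {x1, x2} := by
      rw [BG.N_sdiff, hNa]
      clear * - h1v h2v g1 g2 g3 g4 g5 g6
      grind
    have haR3 : a ∉ ({z, y1, b, v} : Finset V) := by simp only [mem_insert, mem_singleton]; tauto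
    have h3 := hF3.2.1 a x1 x2 (by simp only [mem_sdiff]; exact ⟨haS, haR3⟩) h12 hN3a
      (by rw [hdeg3 x1 (by rw [hNa]; simp) h1v h1t]; exact hdx1)
      (by rw [hdeg3 x2 (by rw [hNa]; simp) h2v h2t]; exact hdx2)
    have hta' : ¬ G.adj t a := fun h => hta (BG.mem_N.2 ⟨htS, G.symm _ _ h⟩)
    have hd1t : G.deg (S \ {a, v}) t = G.deg S t := by
      apply BG.deg_sdiff_eq
      intro r hr
      rw [mem_insert, mem_singleton] at hr
      rcases hr with rfl | rfl
      · exact hta'
      · exact BG.nadj_col hct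
    by_cases hdt3 : 3 ≤ G.deg S t
    · have h1 := hF1.2.2 ⟨t, by simp only [mem_sdiff, mem_insert, mem_singleton]; tauto, by omega⟩
      refine final_of hFS ?_
      rw [hF2']
      rw [yy5] at h1
      nlinarith
    have hdt2 : G.deg S t = 2 := by
      have := hmin t htS
      omega
    obtain ⟨z', hz'z, hNt⟩ := BG.nbr2 hdt2 (BG.mem_N.2 ⟨hzS, G.symm _ _ hzt⟩)
    obtain ⟨hz'S, htz'⟩ := BG.mem_N.1 (show z' ∈ G.N S t by rw [hNt]; simp)
    have hcz' : G.col z' = G.col b := by rw [BG.col_common htz' (G.symm _ _ hzt), hcz]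
    have l1 : z' ≠ b := by rintro rfl; exact htb htz'
    have l2 : z' ≠ a := by rintro rfl; exact hta' htz'
    have l3 : z' ≠ v := fun e => hcvb (by rw [← e, hcz'])
    have l4 : z' ≠ y1 := fun e => hcvb (by rw [← hcy, ← e, hcz'])
    have l5 : z' ≠ y2 := fun e => hcvb (by rw [← hcy2, ← e, hcz'])
    have hz'v : ¬ G.adj z' v := by
      intro h
      have : z' ∈ G.N S v := BG.mem_N.2 ⟨hz'S, G.symm _ _ h⟩
      rw [hNv, mem_insert, mem_singleton] at this
      tauto
    have hz'y : ¬ G.adj z' y1 := by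
      intro h
      have : z' ∈ G.N S y1 := BG.mem_N.2 ⟨hz'S, G.symm _ _ h⟩
      rw [hNy, mem_insert, mem_singleton] at this
      tauto
    rw [hd1t, hdt2] at hpair1
    have hN0b : G.N (S \ {z, y1, a, v}) b = {y2} := by
      rw [BG.N_sdiff, hNb]
      clear * - hy21 hy2v e9 e8
      grind
    have hd0y2 : G.deg (S \ {z, y1, a, v}) y2 = G.deg S y2 := by
      apply BG.deg_sdiff_eq
      intro r hr
      rw [mem_insert, mem_insert, mem_insert, mem_singleton] at hr
      rcases hr with rfl | rfl | rfl | rfl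
      · exact hy2z
      · exact BG.nadj_col (by rw [hcy2, hcy])
      · exact hy2a
      · exact BG.nadj_col hcy2
    have hU0 : G.F (S \ {z, y1, a, v}) = yy ^ (G.deg S y2 - 1) * G.F (S \ {y2, b, z, y1, a, v}) := by
      rw [BG.forced hN0b hbS hbU0, hd0y2]
    have hNU1t : G.N (S \ {y2, b, z, y1, a, v}) t = {z'} := by
      rw [BG.N_sdiff, hNt]
      clear * - hz'z l1 l2 l3 l4 l5
      grind
    have htU1 : t ∉ ({y2, b, z, y1, a, v} : Finset V) := by simp only [mem_insert, mem_singleton]; tauto
    have hz'U1 : ∀ r ∈ ({y2, b, z, y1, a, v} : Finset V), G.adj z' r → r = y2 := by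
      intro r hr hadj
      simp only [mem_insert, mem_singleton] at hr
      rcases hr with rfl | rfl | rfl | rfl | rfl | rfl
      · rfl
      · exact absurd hadj (BG.nadj_col hcz')
      · exact absurd hadj (BG.nadj_col (by rw [hcz', hcz]))
      · exact absurd hadj hz'y
      · exact absurd hadj (BG.nadj_col (by rw [hcz', hca]))
      · exact absurd hadj hz'v
    have hdz' := hmin z' hz'S
    have hU1n := G.F_nonneg (S \ {y2, b, z, y1, a, v})
    have hU1o := (IH (S \ {y2, b, z, y1, a, v}) (card_sdiff_lt hv (by simp))).1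
    have hT1n := G.F_nonneg (S \ {t, z, b, y1, a, v})
    have hT1o := (IH (S \ {t, z, b, y1, a, v}) (card_sdiff_lt hv (by simp))).1
    -- the main estimate suffices
    have hmain : G.F (S \ {z, y1, a, v}) ≤ yy ^ 2 → G.F S ≤ yy := by
      intro h0
      refine final_of hFS ?_
      rw [hpair1, hF2', show 2 + 2 - 1 = 3 from rfl, yy_cube]
      nlinarith
    by_cases hz2 : 2 ≤ G.deg (S \ {y2, b, z, y1, a, v}) z'
    · have h1 := BG.forced_le IH hNU1t htS htU1 (k := 1) hz2
      rw [pow_one] at h1
      apply hmain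
      rw [hU0]
      have h5 : yy ^ (G.deg S y2 - 1) ≤ yy ^ 1 := yy_pow_le (by omega)
      have h6 : 0 ≤ yy ^ (G.deg S y2 - 1) := pow_nonneg hpos.le _
      rw [pow_one] at h5
      nlinarith
    by_cases hdy23 : 3 ≤ G.deg S y2
    · apply hmain
      rw [hU0]
      have h5 : yy ^ (G.deg S y2 - 1) ≤ yy ^ 2 := yy_pow_le (by omega)
      have h6 : 0 ≤ yy ^ (G.deg S y2 - 1) := pow_nonneg hpos.le _
      nlinarith
    -- `z'` is adjacent to `y2`, both of degree two: the second branch vanishes
    have hadj : G.adj z' y2 := by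
      by_contra hn
      apply hz2
      rw [BG.deg_sdiff_eq]
      · exact hdz'
      · intro r hr h
        have h5 := hz'U1 r hr h
        subst h5
        exact hn h
    have hdy22 : G.deg S y2 = 2 := by omega
    obtain ⟨q, hqb, hNy2⟩ := BG.nbr2 hdy22 (BG.mem_N.2 ⟨hbS, G.symm _ _ hby2⟩)
    have hqz : q = z' := by
      have : z' ∈ G.N S y2 := BG.mem_N.2 ⟨hz'S, G.symm _ _ hadj⟩
      rw [hNy2, mem_insert, mem_singleton] at this
      rcases this with h | h
      · exact absurd h l1
      · exact h.symm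
    subst hqz
    have hN3t : G.N (S \ {z, y1, b, v}) t = {q} := by
      rw [BG.N_sdiff, hNt]
      clear * - hz'z l1 l3 l4
      grind
    have htR3 : t ∉ ({z, y1, b, v} : Finset V) := by simp only [mem_insert, mem_singleton]; tauto
    have hzero : G.F (S \ {z, y1, b, v}) = 0 := by
      rw [BG.forced hN3t htS htR3]
      have h5 : G.F (S \ {q, t, z, y1, b, v}) = 0 := by
        apply BG.F_zero (v := y2)
        · simp only [mem_sdiff, mem_insert, mem_singleton]
          refine ⟨hy2S, ?_⟩
          tauto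
        · rw [BG.N_sdiff, hNy2]
          clear * -
          ext x
          simp only [mem_sdiff, mem_insert, mem_singleton, notMem_empty, iff_false]
          tauto
      rw [h5, mul_zero]
    refine final_of hFS ?_
    rw [hF2', hzero]
    have := hF1.1
    linarith

end Pool.Agent.CFree
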