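import Pool.Agent.Lib_MP_6af485_co.StepC

/-!
# MP_6af485_co: the induction
-/

set_option autoImplicit false

namespace Pool.Agent.CFree

open Finset

variable {V : Type} [Fintype V] [DecidableEq V] {G : BG V}

theorem yy_le_c : yy ≤ 3 * yy ^ 5 := by
  rw [yy5]
  linarith [yy_lt, yy2_gt]

theorem c_le_one : 3 * yy ^ 5 ≤ 1 := by
  rw [yy5]
  linarith [yy2_lt]

theorem BG.N_eq_of_card {S : Finset V} {v a b : V} (hd : G.deg S v = 2) (ha : a ∈ G.N S v) (hb : b ∈ G.N S v)
    (hab : a ≠ b) : G.N S v = {a, b} := by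
  symm
  apply eq_of_subset_of_card_le
  · intro x hx
    rw [mem_insert, mem_singleton] at hx
    rcases hx with rfl | rfl
    · exact ha
    · exact hb
  · rw [card_pair hab]
    exact hd.le

/-- vertices of degree at most one -/
theorem BG.reduce {S : Finset V} (IH : ∀ T : Finset V, T.card < S.card → G.P T)
    (h : ∃ w ∈ S, G.deg S w ≤ 1) : G.P S := by
  have hpos := yy_pos
  obtain ⟨w, hw, hd⟩ := h
  rcases Nat.eq_zero_or_pos (G.deg S w) with h0 | h1
  · -- isolated vertex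
    have hN : G.N S w = ∅ := card_eq_zero.1 h0
    have hF := BG.F_zero hw hN
    refine ⟨by rw [hF]; norm_num, fun _ _ _ _ _ _ _ _ => by rw [hF]; exact hpos.le, fun _ => by rw [hF]; positivity⟩
  · have hd1 : (G.N S w).card = 1 := by unfold BG.deg at hd h1; omega
    obtain ⟨u, hu⟩ := card_eq_one.1 hd1
    obtain ⟨huS, hwu⟩ := BG.mem_N.1 (show u ∈ G.N S w by rw [hu]; simp)
    have hN : G.N (S \ ∅) w = {u} := by simpa using hu
    by_cases hd2 : 2 ≤ G.deg S u
    · have hF : G.F S ≤ yy := by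
        have := BG.forced_le IH hN hw (by simp) (k := 1) (by simpa using hd2)
        simpa using this
      exact ⟨hF.trans yy_le_one, fun _ _ _ _ _ _ _ _ => hF, fun _ => hF.trans yy_le_c⟩
    · have hu1 : 1 ≤ G.deg S u := card_pos.2 ⟨w, BG.mem_N.2 ⟨hw, G.symm _ _ hwu⟩⟩
      have hdu : G.deg S u = 1 := by omega
      have hNu : G.N S u = {w} := by
        obtain ⟨w', hw'⟩ := card_eq_one.1 (show (G.N S u).card = 1 from hdu)
        have : w ∈ G.N S u := BG.mem_N.2 ⟨hw, G.symm _ _ hwu⟩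
        rw [hw', mem_singleton] at this
        rw [hw', this]
      have hF : G.F S = G.F (S \ {u, w}) := by
        have h2 := BG.forced hN hw (by simp)
        rw [sdiff_empty, hdu] at h2
        simpa using h2
      obtain ⟨pA, pB, pC⟩ := IH (S \ {u, w}) (card_sdiff_lt hw (by simp))
      have key : ∀ x ∈ S, x ≠ u → x ≠ w → G.deg (S \ {u, w}) x = G.deg S x := by
        intro x hx hxu hxw
        apply BG.deg_sdiff_eq
        intro r hr
        rw [mem_insert, mem_singleton] at hr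
        rcases hr with rfl | rfl
        · intro hadj
          have : x ∈ G.N S r := BG.mem_N.2 ⟨hx, G.symm _ _ hadj⟩
          rw [hNu, mem_singleton] at this
          exact hxw this
        · intro hadj
          have : x ∈ G.N S r := BG.mem_N.2 ⟨hx, G.symm _ _ hadj⟩
          rw [hu, mem_singleton] at this
          exact hxu this
      have hne : ∀ x, 2 ≤ G.deg S x → x ≠ u ∧ x ≠ w := by
        intro x hx
        constructor
        · rintro rfl; omega
        · rintro rfl; omega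
      rw [BG.P, hF]
      refine ⟨pA, ?_, ?_⟩
      · intro v a b hv hab hNv hda hdb
        have hdv : G.deg S v = 2 := by unfold BG.deg; rw [hNv, card_pair hab]
        obtain ⟨v1, v2⟩ := hne v hdv.ge
        obtain ⟨a1, a2⟩ := hne a (by omega)
        obtain ⟨b1, b2⟩ := hne b (by omega)
        have haS := (BG.mem_N.1 (show a ∈ G.N S v by rw [hNv]; simp)).1
        have hbS := (BG.mem_N.1 (show b ∈ G.N S v by rw [hNv]; simp)).1
        refine pB v a b ?_ hab ?_ ?_ ?_
        · rw [mem_sdiff, mem_insert, mem_singleton]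
          exact ⟨hv, by rintro (h | h); exacts [v1 h, v2 h]⟩
        · rw [BG.N_sdiff, hNv]
          ext x
          simp only [mem_sdiff, mem_insert, mem_singleton]
          constructor
          · rintro ⟨h, _⟩; exact h
          · intro h
            refine ⟨h, ?_⟩
            rcases h with rfl | rfl
            · rintro (h | h); exacts [a1 h, a2 h]
            · rintro (h | h); exacts [b1 h, b2 h]
        · rw [key a haS a1 a2]; exact hda
        · rw [key b hbS b1 b2]; exact hdb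
      · rintro ⟨x, hx, hdx⟩
        obtain ⟨x1, x2⟩ := hne x (by omega)
        refine pC ⟨x, ?_, ?_⟩
        · rw [mem_sdiff, mem_insert, mem_singleton]
          exact ⟨hx, by rintro (h | h); exacts [x1 h, x2 h]⟩
        · rw [key x hx x1 x2]; exact hdx

/-- a vertex of degree two with neighbours of degree at least three -/
theorem BG.stepB {S : Finset V} (IH : ∀ T : Finset V, T.card < S.card → G.P T) (hmin : ∀ w ∈ S, 2 ≤ G.deg S w)
    {v a b : V} (hv : v ∈ S) (hab : a ≠ b) (hNv : G.N S v = {a, b}) (hda : 3 ≤ G.deg S a) (hdb : 3 ≤ G.deg S b) :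
    G.F S ≤ yy := by
  have hpos := yy_pos
  have hNv' : G.N S v = {b, a} := by rw [hNv, pair_comm]
  obtain ⟨haS, hva⟩ := BG.mem_N.1 (show a ∈ G.N S v by rw [hNv]; simp)
  obtain ⟨hbS, hvb⟩ := BG.mem_N.1 (show b ∈ G.N S v by rw [hNv]; simp)
  by_cases ha : G.deg S a = 3
  · by_cases hb : G.deg S b = 3
    · by_cases hPa : ∃ x ∈ G.N S a, x ≠ v ∧ G.deg S x = 2
      · by_cases hPb : ∃ x ∈ G.N S b, x ≠ v ∧ G.deg S x = 2
        · obtain ⟨x, hx, hxv, hdx⟩ := hPa
          obtain ⟨x', hx', hxv', hdx'⟩ := hPb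
          have h1 := BG.FX IH hmin hab hNv hx hxv hdx
          have h2 := BG.FX IH hmin hab.symm hNv' hx' hxv' hdx'
          rw [BG.two' hab hNv hv, ha, hb, yy_cube]
          linarith
        · obtain ⟨x, hx, hxv, hdx⟩ := hPa
          refine BG.case3 IH hmin hv hab.symm hNv' hb ha ?_ hx hxv hdx
          intro x' hx' hxv'
          by_contra hlt
          have := hmin x' (BG.mem_N.1 hx').1
          exact hPb ⟨x', hx', hxv', by omega⟩
      · have hPa' : ∀ x' ∈ G.N S a, x' ≠ v → 3 ≤ G.deg S x' := by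
          intro x' hx' hxv'
          by_contra hlt
          have := hmin x' (BG.mem_N.1 hx').1
          exact hPa ⟨x', hx', hxv', by omega⟩
        by_cases hPb : ∃ x ∈ G.N S b, x ≠ v ∧ G.deg S x = 2
        · obtain ⟨x, hx, hxv, hdx⟩ := hPb
          exact BG.case3 IH hmin hv hab hNv ha hb hPa' hx hxv hdx
        · have hPb' : ∀ x' ∈ G.N S b, x' ≠ v → 3 ≤ G.deg S x' := by
            intro x' hx' hxv'
            by_contra hlt
            have := hmin x' (BG.mem_N.1 hx').1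
            exact hPb ⟨x', hx', hxv', by omega⟩
          obtain ⟨x1, x2, h12, h1v, h2v, hNa⟩ := BG.nbr3 ha (BG.mem_N.2 ⟨hv, G.symm _ _ hva⟩)
          obtain ⟨y1, y2, g12, g1v, g2v, hNb⟩ := BG.nbr3 hb (BG.mem_N.2 ⟨hv, G.symm _ _ hvb⟩)
          have h1 := BG.FS IH hv hab hNv hNa h12 h1v h2v (hPa' x1 (by rw [hNa]; simp) h1v)
            (hPa' x2 (by rw [hNa]; simp) h2v)
          have h2 := BG.FS IH hv hab.symm hNv' hNb g12 g1v g2v (hPb' y1 (by rw [hNb]; simp) g1v)
            (hPb' y2 (by rw [hNb]; simp) g2v)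
          rw [BG.two' hab hNv hv, ha, hb, yy_cube]
          linarith
    · exact BG.stepB_two IH hmin hv hab hNv ha (by omega)
  · by_cases hb : G.deg S b = 3
    · exact BG.stepB_two IH hmin hv hab.symm hNv' hb (by omega)
    · rw [BG.two' hab hNv hv]
      have h1 := (IH (S \ {a, v}) (card_sdiff_lt hv (by simp))).1
      have h2 := (IH (S \ {b, v}) (card_sdiff_lt hv (by simp))).1
      have n1 := G.F_nonneg (S \ {a, v})
      have n2 := G.F_nonneg (S \ {b, v})
      have p1 : yy ^ G.deg S a ≤ yy ^ 4 := yy_pow_le (by omega)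
      have p2 : yy ^ G.deg S b ≤ yy ^ 4 := yy_pow_le (by omega)
      have q1 : yy ^ G.deg S a * G.F (S \ {a, v}) ≤ yy ^ 4 * 1 := mul_le_mul p1 h1 n1 (by positivity)
      have q2 : yy ^ G.deg S b * G.F (S \ {b, v}) ≤ yy ^ 4 * 1 := mul_le_mul p2 h2 n2 (by positivity)
      rw [yy4] at q1 q2
      linarith

/-- the first term of the pair formula -/
theorem BG.pairFirst {S : Finset V} (IH : ∀ T : Finset V, T.card < S.card → G.P T) (hmin : ∀ w ∈ S, 2 ≤ G.deg S w)
    {v1 v2 q : V} (hv1 : v1 ∈ S) (h2 : G.N S v2 = {v1, q}) (hq : v1 ≠ q) (hv2 : v2 ∈ S)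
    (hdq : G.deg S q = 2) : G.F (S \ {v2, v1}) ≤ yy := by
  obtain ⟨-, h21⟩ := BG.mem_N.1 (show v1 ∈ G.N S v2 by rw [h2]; simp)
  obtain ⟨hqS, h2q⟩ := BG.mem_N.1 (show q ∈ G.N S v2 by rw [h2]; simp)
  obtain ⟨r, hr2, hNq⟩ := BG.nbr2 hdq (BG.mem_N.2 ⟨hv2, G.symm _ _ h2q⟩)
  obtain ⟨hrS, hqr⟩ := BG.mem_N.1 (show r ∈ G.N S q by rw [hNq]; simp)
  have hc1 : G.col v1 = G.col q := BG.col_common h21 h2q
  have hr1 : r ≠ v1 := by
    rintro rfl
    exact BG.nadj_col hc1.symm hqr
  have hN : G.N (S \ {v2, v1}) q = {r} := by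
    rw [BG.N_sdiff, hNq]
    ext x
    simp only [mem_sdiff, mem_insert, mem_singleton]
    constructor
    · rintro ⟨h | h, h'⟩
      · exact absurd (Or.inl h) h'
      · exact h
    · rintro rfl
      exact ⟨Or.inr rfl, by rintro (h | h); exacts [hr2 h, hr1 h]⟩
  have hqR : q ∉ ({v2, v1} : Finset V) := by
    rw [mem_insert, mem_singleton]
    rintro (h | h)
    · exact BG.ne_of_adj h2q h.symm
    · exact hq h.symm
  have hd : G.deg (S \ {v2, v1}) r = G.deg S r := by
    apply BG.deg_sdiff_eq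
    intro s hs
    rw [mem_insert, mem_singleton] at hs
    rcases hs with rfl | rfl
    · exact BG.nadj_common hqr (G.symm _ _ h2q)
    · intro hadj
      exact hr2 (G.c4 q s r v2 hq.symm hqr (G.symm _ _ hadj) (G.symm _ _ h2q) (G.symm _ _ h21))
  have := BG.forced_le IH hN hqS hqR (k := 1) (by
    have := hmin r hrS
    omega)
  simpa using this

/-- all degrees are two -/
theorem BG.step4 {S : Finset V} (IH : ∀ T : Finset V, T.card < S.card → G.P T) (hall : ∀ w ∈ S, G.deg S w = 2) :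
    G.F S ≤ 1 := by
  have hpos := yy_pos
  have hmin : ∀ w ∈ S, 2 ≤ G.deg S w := fun w hw => (hall w hw).ge
  rcases S.eq_empty_or_nonempty with rfl | ⟨v1, hv1⟩
  · have h1 : G.pm ∅ = 1 := by
      unfold BG.pm
      rw [card_eq_one]
      refine ⟨1, ?_⟩
      ext f
      simp only [BG.PM, mem_filter, mem_univ, true_and, mem_singleton]
      constructor
      · rintro ⟨_, _, h⟩
        ext x
        rw [h x (by simp), Equiv.Perm.one_apply]
      · rintro rfl
        simp
    unfold BG.F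
    rw [h1]
    simp [BG.E2]
  · obtain ⟨v2, p, h2p, hN1⟩ := card_eq_two.1 (show (G.N S v1).card = 2 from hall v1 hv1)
    obtain ⟨hv2, h12⟩ := BG.mem_N.1 (show v2 ∈ G.N S v1 by rw [hN1]; simp)
    obtain ⟨hp, h1p⟩ := BG.mem_N.1 (show p ∈ G.N S v1 by rw [hN1]; simp)
    obtain ⟨q, hq1, hN2⟩ := BG.nbr2 (hall v2 hv2) (BG.mem_N.2 ⟨hv1, G.symm _ _ h12⟩)
    obtain ⟨hq, h2q⟩ := BG.mem_N.1 (show q ∈ G.N S v2 by rw [hN2]; simp)
    have hpair := BG.pair (G := G) (S := S) (R := ∅) (v1 := v1) (v2 := v2) (p := p) (q := q)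
      (by simpa using hN1) (by simpa using hN2) h2p hq1.symm hv1 (by simp) hv2 (by simp)
    rw [sdiff_empty, hall p hp, hall q hq, show 2 + 2 - 1 = 3 from rfl] at hpair
    have h1 := BG.pairFirst IH hmin hv1 hN2 hq1.symm hv2 (hall q hq)
    have h2 := (IH (S \ (insert q (insert v2 (insert p (insert v1 ∅))))) (card_sdiff_lt hv1 (by simp))).1
    have h3 : G.F (S \ (insert v2 (insert v1 ∅))) ≤ yy := by simpa using h1
    rw [hpair]
    have h4 : yy ^ 2 * G.F (S \ (insert v2 (insert v1 ∅))) ≤ yy ^ 2 * yy := mul_le_mul_of_nonneg_left h3 (by positivity)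
    have h5 : yy ^ 2 * yy = 1 / 2 := by rw [← yy_cube]; ring
    rw [yy_cube]
    linarith

/-- a vertex of degree at least three next to a vertex of degree two -/
theorem BG.step3a {S : Finset V} (IH : ∀ T : Finset V, T.card < S.card → G.P T) (hmin : ∀ w ∈ S, 2 ≤ G.deg S w)
    {v1 u : V} (hv1 : v1 ∈ S) (hu : u ∈ G.N S v1) (hd1 : G.deg S v1 = 2) (hdu : 3 ≤ G.deg S u) :
    G.F S ≤ 3 * yy ^ 5 := by
  have hpos := yy_pos
  obtain ⟨v2, h2u, hN1⟩ := BG.nbr2 hd1 hu
  obtain ⟨hv2, h12⟩ := BG.mem_N.1 (show v2 ∈ G.N S v1 by rw [hN1]; simp)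
  by_cases hd2 : 3 ≤ G.deg S v2
  · exact (BG.stepB IH hmin hv1 h2u.symm hN1 hdu hd2).trans yy_le_c
  have hd2' : G.deg S v2 = 2 := by
    have := hmin v2 hv2
    omega
  obtain ⟨q, hq1, hN2⟩ := BG.nbr2 hd2' (BG.mem_N.2 ⟨hv1, G.symm _ _ h12⟩)
  obtain ⟨hq, h2q⟩ := BG.mem_N.1 (show q ∈ G.N S v2 by rw [hN2]; simp)
  have hN1' : G.N S v1 = {v2, u} := by rw [hN1, pair_comm]
  have hpair := BG.pair (G := G) (S := S) (R := ∅) (v1 := v1) (v2 := v2) (p := u) (q := q)
      (by simpa using hN1') (by simpa using hN2) h2u hq1.symm hv1 (by simp) hv2 (by simp)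
  rw [sdiff_empty] at hpair
  have n1 := G.F_nonneg (S \ (insert v2 (insert v1 ∅)))
  have n2 := G.F_nonneg (S \ (insert q (insert v2 (insert u (insert v1 ∅)))))
  have h2 := (IH (S \ (insert q (insert v2 (insert u (insert v1 ∅))))) (card_sdiff_lt hv1 (by simp))).1
  have h1o := (IH (S \ (insert v2 (insert v1 ∅))) (card_sdiff_lt hv1 (by simp))).1
  by_cases hdq : 3 ≤ G.deg S q
  · have p1 : yy ^ (G.deg S u + G.deg S q - 1) ≤ yy ^ 5 := yy_pow_le (by omega)
    have p2 : yy ^ (G.deg S u + G.deg S q - 1) * G.F (S \ (insert q (insert v2 (insert u (insert v1 ∅))))) ≤ yy ^ 5 * 1 :=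
      mul_le_mul p1 h2 n2 (by positivity)
    have p3 : yy ^ 2 * G.F (S \ (insert v2 (insert v1 ∅))) ≤ yy ^ 2 * 1 := mul_le_mul_of_nonneg_left h1o (by positivity)
    rw [hpair]
    rw [yy5] at p2 ⊢
    linarith
  · have hdq2 : G.deg S q = 2 := by
      have := hmin q hq
      omega
    have h1 := BG.pairFirst IH hmin hv1 hN2 hq1.symm hv2 hdq2
    have h3 : G.F (S \ (insert v2 (insert v1 ∅))) ≤ yy := by simpa using h1
    have p1 : yy ^ (G.deg S u + G.deg S q - 1) ≤ yy ^ 4 := yy_pow_le (by omega)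
    have p2 : yy ^ (G.deg S u + G.deg S q - 1) * G.F (S \ (insert q (insert v2 (insert u (insert v1 ∅))))) ≤ yy ^ 4 * 1 :=
      mul_le_mul p1 h2 n2 (by positivity)
    have p3 : yy ^ 2 * G.F (S \ (insert v2 (insert v1 ∅))) ≤ yy ^ 2 * yy := mul_le_mul_of_nonneg_left h3 (by positivity)
    have h5 : yy ^ 2 * yy = 1 / 2 := by rw [← yy_cube]; ring
    rw [hpair]
    rw [yy4] at p2
    rw [yy5]
    linarith [yy_lt, yy2_gt]

/-- in the closed part of the vertices of degree at least three, a neighbour of degree three becomes good -/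
theorem BG.good3 {S : Finset V} (IH : ∀ T : Finset V, T.card < S.card → G.P T) {v u w : V} (hv : v ∈ S)
    (hu : u ∈ G.N S v) (hw : w ∈ G.N S v) (huw : u ≠ w) (hdw : G.deg S w = 3)
    (hcl : ∀ x ∈ G.N S w, 3 ≤ G.deg S x) : G.F ((S.erase v).erase u) ≤ yy := by
  obtain ⟨huS, hvu⟩ := BG.mem_N.1 hu
  obtain ⟨hwS, hvw⟩ := BG.mem_N.1 hw
  obtain ⟨x1, x2, h12, h1v, h2v, hNw⟩ := BG.nbr3 hdw (BG.mem_N.2 ⟨hv, G.symm _ _ hvw⟩)
  obtain ⟨h1S, hw1⟩ := BG.mem_N.1 (show x1 ∈ G.N S w by rw [hNw]; simp)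
  obtain ⟨h2S, hw2⟩ := BG.mem_N.1 (show x2 ∈ G.N S w by rw [hNw]; simp)
  have hset : (S.erase v).erase u = S \ {u, v} := by
    ext x
    simp only [mem_erase, mem_sdiff, mem_insert, mem_singleton]
    tauto
  have hwu : ¬ G.adj w u := BG.nadj_common hvw hvu
  have h1u : x1 ≠ u := by rintro rfl; exact hwu hw1
  have h2u : x2 ≠ u := by rintro rfl; exact hwu hw2
  have key : ∀ x, G.adj w x → x ≠ v → G.deg (S \ {u, v}) x = G.deg S x := by
    intro x hwx hxv
    apply BG.deg_sdiff_eq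
    intro r hr
    rw [mem_insert, mem_singleton] at hr
    rcases hr with rfl | rfl
    · intro h
      exact huw (G.c4 x v w r hxv (G.symm _ _ hwx) hvw h hvu).symm
    · exact BG.nadj_common hwx (G.symm _ _ hvw)
  rw [hset]
  refine (IH (S \ {u, v}) (card_sdiff_lt hv (by simp))).2.1 w x1 x2 ?_ h12 ?_ ?_ ?_
  · rw [mem_sdiff, mem_insert, mem_singleton]
    refine ⟨hwS, ?_⟩
    rintro (h | h)
    · exact huw h.symm
    · exact BG.ne_of_adj hvw h.symm
  · rw [BG.N_sdiff, hNw]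
    ext x
    simp only [mem_sdiff, mem_insert, mem_singleton]
    constructor
    · rintro ⟨h | h | h, h'⟩
      · exact absurd (Or.inr h) h'
      · exact Or.inl h
      · exact Or.inr h
    · rintro (rfl | rfl)
      · exact ⟨Or.inr (Or.inl rfl), by rintro (h | h); exacts [h1u h, h1v h]⟩
      · exact ⟨Or.inr (Or.inr rfl), by rintro (h | h); exacts [h2u h, h2v h]⟩
  · rw [key x1 hw1 h1v]; exact hcl x1 (by rw [hNw]; simp)
  · rw [key x2 hw2 h2v]; exact hcl x2 (by rw [hNw]; simp)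

theorem pow_bound : ∀ d : ℕ, 4 ≤ d → (d : ℝ) * yy ^ (2 * d - 2) ≤ 1 := by
  intro d hd
  induction d, hd using Nat.le_induction with
  | base =>
    rw [show 2 * 4 - 2 = 6 from rfl, yy6]
    norm_num
  | succ d hd ih =>
    have e : 2 * (d + 1) - 2 = 2 * d - 2 + 2 := by omega
    rw [e, pow_add]
    push_cast
    have h1 : (d : ℝ) + 1 ≤ d * (5 / 4) := by
      have : (4 : ℝ) ≤ d := by exact_mod_cast hd
      linarith
    have h2 : 0 ≤ yy ^ (2 * d - 2) := pow_nonneg yy_pos.le _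
    have h3 := yy2_lt
    have h4 : 0 ≤ yy ^ 2 := by positivity
    calc ((d : ℝ) + 1) * (yy ^ (2 * d - 2) * yy ^ 2) ≤ (d * (5 / 4)) * (yy ^ (2 * d - 2) * yy ^ 2) :=
          mul_le_mul_of_nonneg_right h1 (mul_nonneg h2 h4)
      _ = (d * yy ^ (2 * d - 2)) * (5 / 4 * yy ^ 2) := by ring
      _ ≤ 1 * 1 := by
          refine mul_le_mul ih (by linarith) (by positivity) (by norm_num)
      _ = 1 := by norm_num

/-- no edge between degree two and degree at least three; a vertex of degree exactly three -/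
theorem BG.step3b1 {S : Finset V} (IH : ∀ T : Finset V, T.card < S.card → G.P T)
    (hcl : ∀ x ∈ S, 3 ≤ G.deg S x → ∀ u ∈ G.N S x, 3 ≤ G.deg S u)
    {v : V} (hv : v ∈ S) (hd : G.deg S v = 3) : G.F S ≤ 3 * yy ^ 5 := by
  have hpos := yy_pos
  have hclv := hcl v hv hd.ge
  rw [BG.F_expand hv, hd]
  have hcard : (G.N S v).card = 3 := hd
  have n : ∀ u, 0 ≤ G.F ((S.erase v).erase u) := fun u => G.F_nonneg _
  have hone : ∀ u ∈ G.N S v, G.F ((S.erase v).erase u) ≤ 1 := by
    intro u hu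
    refine (IH _ ?_).1
    exact (card_le_card (erase_subset _ _)).trans_lt (card_erase_lt_of_mem hv)
  have hgood : ∀ u ∈ G.N S v, ∀ w ∈ G.N S v, u ≠ w → G.deg S w = 3 → G.F ((S.erase v).erase u) ≤ yy := by
    intro u hu w hw huw hdw
    exact BG.good3 IH hv hu hw huw hdw (hcl w (BG.mem_N.1 hw).1 hdw.ge)
  by_cases h3 : ∃ w ∈ G.N S v, G.deg S w = 3
  · obtain ⟨w, hw, hdw⟩ := h3
    by_cases h3' : ∃ w' ∈ G.N S v, w' ≠ w ∧ G.deg S w' = 3
    · obtain ⟨w', hw', hww', hdw'⟩ := h3'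
      have hall : ∀ u ∈ G.N S v, yy ^ (3 + G.deg S u - 2) * G.F ((S.erase v).erase u) ≤ yy ^ 5 := by
        intro u hu
        have h1 : G.F ((S.erase v).erase u) ≤ yy := by
          by_cases huw : u = w
          · exact hgood u hu w' hw' (by rw [huw]; exact hww'.symm) hdw'
          · exact hgood u hu w hw huw hdw
        have h2 : yy ^ (3 + G.deg S u - 2) ≤ yy ^ 4 := yy_pow_le (by have := hclv u hu; omega)
        calc yy ^ (3 + G.deg S u - 2) * G.F ((S.erase v).erase u) ≤ yy ^ 4 * yy :=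
              mul_le_mul h2 h1 (n u) (by positivity)
          _ = yy ^ 5 := by ring
      calc ∑ u ∈ G.N S v, yy ^ (3 + G.deg S u - 2) * G.F ((S.erase v).erase u) ≤ ∑ u ∈ G.N S v, yy ^ 5 :=
            sum_le_sum hall
        _ = 3 * yy ^ 5 := by rw [sum_const, hcard]; simp
    · -- exactly one neighbour of degree three
      rw [← add_sum_erase _ _ hw]
      have hc2 : ((G.N S v).erase w).card = 2 := by
        have := card_erase_add_one hw
        omega
      have hall : ∀ u ∈ (G.N S v).erase w, yy ^ (3 + G.deg S u - 2) * G.F ((S.erase v).erase u) ≤ yy ^ 6 := by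
        intro u hu
        obtain ⟨huw, hu'⟩ := mem_erase.1 hu
        have h1 : G.F ((S.erase v).erase u) ≤ yy := hgood u hu' w hw huw hdw
        have hdu : 4 ≤ G.deg S u := by
          have h5 := hclv u hu'
          by_contra hlt
          exact h3' ⟨u, hu', huw, by omega⟩
        have h2 : yy ^ (3 + G.deg S u - 2) ≤ yy ^ 5 := yy_pow_le (by omega)
        calc yy ^ (3 + G.deg S u - 2) * G.F ((S.erase v).erase u) ≤ yy ^ 5 * yy :=
              mul_le_mul h2 h1 (n u) (by positivity)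
          _ = yy ^ 6 := by ring
      have h4 : ∑ u ∈ (G.N S v).erase w, yy ^ (3 + G.deg S u - 2) * G.F ((S.erase v).erase u) ≤ 2 * yy ^ 6 := by
        calc _ ≤ ∑ u ∈ (G.N S v).erase w, yy ^ 6 := sum_le_sum hall
          _ = 2 * yy ^ 6 := by rw [sum_const, hc2]; simp
      have h5 : yy ^ (3 + G.deg S w - 2) * G.F ((S.erase v).erase w) ≤ yy ^ 4 := by
        rw [hdw, show 3 + 3 - 2 = 4 from rfl]
        have := hone w hw
        nlinarith [pow_pos hpos 4]
      rw [yy6] at h4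
      rw [yy4] at h5
      rw [yy5]
      linarith [yy_lt, yy2_gt]
  · have hall : ∀ u ∈ G.N S v, yy ^ (3 + G.deg S u - 2) * G.F ((S.erase v).erase u) ≤ yy ^ 5 := by
      intro u hu
      have hdu : 4 ≤ G.deg S u := by
        have h5 := hclv u hu
        by_contra hlt
        exact h3 ⟨u, hu, by omega⟩
      have h2 : yy ^ (3 + G.deg S u - 2) ≤ yy ^ 5 := yy_pow_le (by omega)
      calc yy ^ (3 + G.deg S u - 2) * G.F ((S.erase v).erase u) ≤ yy ^ 5 * 1 :=
            mul_le_mul h2 (hone u hu) (n u) (by positivity)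
        _ = yy ^ 5 := by ring
    calc ∑ u ∈ G.N S v, yy ^ (3 + G.deg S u - 2) * G.F ((S.erase v).erase u) ≤ ∑ u ∈ G.N S v, yy ^ 5 :=
          sum_le_sum hall
      _ = 3 * yy ^ 5 := by rw [sum_const, hcard]; simp

/-- no edge between degree two and degree at least three; no vertex of degree exactly three -/
theorem BG.step3b2 {S : Finset V} (IH : ∀ T : Finset V, T.card < S.card → G.P T)
    (hcl : ∀ x ∈ S, 3 ≤ G.deg S x → ∀ u ∈ G.N S x, 3 ≤ G.deg S u)
    (hno : ∀ x ∈ S, G.deg S x ≠ 3) (hex : ∃ w ∈ S, 3 ≤ G.deg S w) : G.F S ≤ 3 * yy ^ 5 := by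
  have hpos := yy_pos
  obtain ⟨w0, hw0, hd0⟩ := hex
  -- the minimal degree in the closed part
  obtain ⟨v, hv, hmin⟩ := exists_min_image (S.filter fun w => 3 ≤ G.deg S w) (fun w => G.deg S w)
    ⟨w0, mem_filter.2 ⟨hw0, hd0⟩⟩
  rw [mem_filter] at hv
  obtain ⟨hvS, hd3⟩ := hv
  have hd4 : 4 ≤ G.deg S v := by
    have := hno v hvS
    omega
  have hclv := hcl v hvS hd3
  have hge : ∀ u ∈ G.N S v, G.deg S v ≤ G.deg S u := fun u hu =>
    hmin u (mem_filter.2 ⟨(BG.mem_N.1 hu).1, hclv u hu⟩)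
  rw [BG.F_expand hvS]
  have hC : ∀ u ∈ G.N S v, G.F ((S.erase v).erase u) ≤ 3 * yy ^ 5 := by
    intro u hu
    obtain ⟨huS, hvu⟩ := BG.mem_N.1 hu
    refine (IH _ ((card_le_card (erase_subset _ _)).trans_lt (card_erase_lt_of_mem hvS))).2.2 ?_
    have hex2 : ∃ w ∈ G.N S v, w ≠ u := by
      have h1 : 1 < (G.N S v).card := by
        have : 4 ≤ (G.N S v).card := hd4
        omega
      obtain ⟨x, hx, y, hy, hxy⟩ := one_lt_card.1 h1
      by_cases hxu : x = u
      · exact ⟨y, hy, fun h => hxy (by rw [hxu, h])⟩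
      · exact ⟨x, hx, hxu⟩
    obtain ⟨w, hw, hwu⟩ := hex2
    obtain ⟨hwS, hvw⟩ := BG.mem_N.1 hw
    refine ⟨w, ?_, ?_⟩
    · rw [mem_erase, mem_erase]
      exact ⟨hwu, (BG.ne_of_adj hvw).symm, hwS⟩
    · have h1 : G.deg ((S.erase v).erase u) w = G.deg (S.erase v) w :=
        BG.deg_erase_of_not (BG.nadj_common hvw hvu)
      have h2 := BG.deg_erase_of_adj (G := G) (S := S) (G.symm _ _ hvw) hvS
      have h3 := hge w hw
      omega
  have hterm : ∀ u ∈ G.N S v, yy ^ (G.deg S v + G.deg S u - 2) * G.F ((S.erase v).erase u) ≤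
      yy ^ (2 * G.deg S v - 2) * (3 * yy ^ 5) := by
    intro u hu
    exact mul_le_mul (yy_pow_le (by have := hge u hu; omega)) (hC u hu) (G.F_nonneg _) (by positivity)
  calc _ ≤ ∑ u ∈ G.N S v, yy ^ (2 * G.deg S v - 2) * (3 * yy ^ 5) := sum_le_sum hterm
    _ = ((G.deg S v : ℝ) * yy ^ (2 * G.deg S v - 2)) * (3 * yy ^ 5) := by
        rw [sum_const, nsmul_eq_mul]
        unfold BG.deg
        ring
    _ ≤ 1 * (3 * yy ^ 5) := mul_le_mul_of_nonneg_right (pow_bound _ hd4) (by positivity)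
    _ = 3 * yy ^ 5 := one_mul _

theorem BG.stepC {S : Finset V} (IH : ∀ T : Finset V, T.card < S.card → G.P T) (hmin : ∀ w ∈ S, 2 ≤ G.deg S w)
    (hex : ∃ w ∈ S, 3 ≤ G.deg S w) : G.F S ≤ 3 * yy ^ 5 := by
  by_cases hedge : ∃ v1 ∈ S, ∃ u ∈ G.N S v1, G.deg S v1 = 2 ∧ 3 ≤ G.deg S u
  · obtain ⟨v1, hv1, u, hu, hd1, hdu⟩ := hedge
    exact BG.step3a IH hmin hv1 hu hd1 hdu
  · have hcl : ∀ x ∈ S, 3 ≤ G.deg S x → ∀ u ∈ G.N S x, 3 ≤ G.deg S u := by
      intro x hx hdx u hu
      obtain ⟨huS, hxu⟩ := BG.mem_N.1 hu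
      by_contra hlt
      have := hmin u huS
      exact hedge ⟨u, huS, x, BG.mem_N.2 ⟨hx, G.symm _ _ hxu⟩, by omega, hdx⟩
    by_cases h3 : ∃ v ∈ S, G.deg S v = 3
    · obtain ⟨v, hv, hd⟩ := h3
      exact BG.step3b1 IH hcl hv hd
    · exact BG.step3b2 IH hcl (fun x hx h => h3 ⟨x, hx, h⟩) hex

/-- the main theorem: `F ≤ 1`, `F ≤ 3 y^5` if a vertex has degree at least three -/
theorem BG.main (G : BG V) : ∀ (n : ℕ) (S : Finset V), S.card = n → G.P S := by
  intro n
  induction n using Nat.strong_induction_on with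
  | _ n ih =>
    intro S hS
    have IH : ∀ T : Finset V, T.card < S.card → G.P T := fun T hT => ih T.card (by omega) T rfl
    by_cases hlow : ∃ w ∈ S, G.deg S w ≤ 1
    · exact BG.reduce IH hlow
    have hmin : ∀ w ∈ S, 2 ≤ G.deg S w := by
      intro w hw
      by_contra hlt
      exact hlow ⟨w, hw, by omega⟩
    refine ⟨?_, ?_, ?_⟩
    · by_cases hex : ∃ w ∈ S, 3 ≤ G.deg S w
      · exact (BG.stepC IH hmin hex).trans c_le_one
      · apply BG.step4 IH
        intro w hw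
        have h1 := hmin w hw
        by_contra hne
        exact hex ⟨w, hw, by omega⟩
    · intro v a b hv hab hNv hda hdb
      exact BG.stepB IH hmin hv hab hNv hda hdb
    · intro hex
      exact BG.stepC IH hmin hex

end Pool.Agent.CFree
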