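import Pool.Agent.Lib_MP_6af485_co.Base

/-!
# MP_6af485_co: tools for the induction
-/

set_option autoImplicit false

namespace Pool.Agent.CFree

open Finset

variable {V : Type} [Fintype V] [DecidableEq V] {G : BG V}

theorem BG.N_sdiff (S R : Finset V) (v : V) : G.N (S \ R) v = G.N S v \ R := by
  ext x
  simp only [BG.mem_N, mem_sdiff]
  tauto

theorem BG.ne_of_adj {u v : V} (h : G.adj u v) : u ≠ v := fun e => BG.irr v (e ▸ h)

/-- vertices with a common neighbour are not adjacent -/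
theorem BG.nadj_common {x y z : V} (h1 : G.adj z x) (h2 : G.adj z y) : ¬ G.adj x y := by
  intro h3
  have a1 := G.bip _ _ h1
  have a2 := G.bip _ _ h2
  have a3 := G.bip _ _ h3
  cases hz : G.col z <;> cases hx : G.col x <;> cases hy : G.col y <;> simp_all

theorem BG.col_common {x y z : V} (h1 : G.adj z x) (h2 : G.adj z y) : G.col x = G.col y := by
  have a1 := G.bip _ _ h1
  have a2 := G.bip _ _ h2
  cases hz : G.col z <;> cases hx : G.col x <;> cases hy : G.col y <;> simp_all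

theorem BG.nadj_col {x y : V} (h : G.col x = G.col y) : ¬ G.adj x y := fun h' => G.bip _ _ h' h

theorem BG.col_path {x y z : V} (h1 : G.adj x y) (h2 : G.adj y z) : G.col x = G.col z :=
  BG.col_common (G.symm _ _ h1) h2

theorem BG.deg_sdiff_eq {S R : Finset V} {w : V} (h : ∀ r ∈ R, ¬ G.adj w r) :
    G.deg (S \ R) w = G.deg S w := by
  unfold BG.deg
  rw [BG.N_sdiff, sdiff_eq_self_of_disjoint]
  rw [disjoint_left]
  intro x hx hr
  exact h x hr (BG.mem_N.1 hx).2

theorem BG.deg_sdiff_ge {S R : Finset V} {w r0 : V} (h : ∀ r ∈ R, G.adj w r → r = r0) :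
    G.deg S w ≤ G.deg (S \ R) w + 1 := by
  unfold BG.deg
  rw [BG.N_sdiff]
  have h1 : G.N S w ⊆ insert r0 (G.N S w \ R) := by
    intro x hx
    by_cases hr : x ∈ R
    · rw [h x hr (BG.mem_N.1 hx).2]; exact mem_insert_self _ _
    · exact mem_insert_of_mem (mem_sdiff.2 ⟨hx, hr⟩)
  exact (card_le_card h1).trans (card_insert_le _ _)

theorem BG.deg_sdiff_le (S R : Finset V) (w : V) : G.deg (S \ R) w ≤ G.deg S w := by
  unfold BG.deg
  rw [BG.N_sdiff]
  exact card_le_card sdiff_subset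

theorem erase_erase_sdiff (S R : Finset V) (v u : V) :
    ((S \ R).erase v).erase u = S \ (insert u (insert v R)) := by
  ext x
  simp only [mem_erase, mem_sdiff, mem_insert]
  tauto

theorem yy_le_one : yy ≤ 1 := by linarith [yy_lt]

theorem yy_pow_le {m n : ℕ} (h : m ≤ n) : yy ^ n ≤ yy ^ m := pow_le_pow_of_le_one yy_pos.le yy_le_one h

/-- forced edge -/
theorem BG.forced {S R : Finset V} {v u : V} (hN : G.N (S \ R) v = {u}) (hv : v ∈ S) (hvR : v ∉ R) :
    G.F (S \ R) = yy ^ (G.deg (S \ R) u - 1) * G.F (S \ (insert u (insert v R))) := by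
  have hv' : v ∈ S \ R := mem_sdiff.2 ⟨hv, hvR⟩
  rw [BG.F_expand hv', hN, sum_singleton, erase_erase_sdiff]
  have hd : G.deg (S \ R) v = 1 := by unfold BG.deg; rw [hN, card_singleton]
  rw [hd]
  congr 2
  omega

/-- expansion at a vertex of degree two -/
theorem BG.two {S R : Finset V} {v a b : V} (hab : a ≠ b) (hN : G.N (S \ R) v = {a, b}) (hv : v ∈ S) (hvR : v ∉ R) :
    G.F (S \ R) = yy ^ (G.deg (S \ R) a) * G.F (S \ (insert a (insert v R))) +
      yy ^ (G.deg (S \ R) b) * G.F (S \ (insert b (insert v R))) := by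
  have hv' : v ∈ S \ R := mem_sdiff.2 ⟨hv, hvR⟩
  rw [BG.F_expand hv', hN, sum_pair hab, erase_erase_sdiff, erase_erase_sdiff]
  have hd : G.deg (S \ R) v = 2 := by unfold BG.deg; rw [hN, card_pair hab]
  rw [hd]
  congr 3 <;> omega

/-- a vertex without neighbour -/
theorem BG.F_zero {S : Finset V} {v : V} (hv : v ∈ S) (hN : G.N S v = ∅) : G.F S = 0 := by
  rw [BG.F_expand hv, hN, sum_empty]

/-- two adjacent vertices of degree two -/
theorem BG.pair {S R : Finset V} {v1 v2 p q : V} (h1 : G.N (S \ R) v1 = {v2, p}) (h2 : G.N (S \ R) v2 = {v1, q})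
    (hp : v2 ≠ p) (hq : v1 ≠ q) (hv1 : v1 ∈ S) (hv1R : v1 ∉ R) (hv2 : v2 ∈ S) (hv2R : v2 ∉ R) :
    G.F (S \ R) = yy ^ 2 * G.F (S \ (insert v2 (insert v1 R))) +
      yy ^ (G.deg (S \ R) p + G.deg (S \ R) q - 1) * G.F (S \ (insert q (insert v2 (insert p (insert v1 R))))) := by
  have m1 : v2 ∈ G.N (S \ R) v1 := by rw [h1]; simp
  have m2 : p ∈ G.N (S \ R) v1 := by rw [h1]; simp
  have m3 : q ∈ G.N (S \ R) v2 := by rw [h2]; simp
  obtain ⟨s1, a1⟩ := BG.mem_N.1 m1
  obtain ⟨s2, a2⟩ := BG.mem_N.1 m2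
  obtain ⟨s3, a3⟩ := BG.mem_N.1 m3
  have hd2 : G.deg (S \ R) v2 = 2 := by unfold BG.deg; rw [h2, card_pair hq]
  rw [BG.two hp h1 hv1 hv1R, hd2]
  have hqp : q ≠ p := by
    rintro rfl
    exact (BG.nadj_common a1 a2) a3
  have hN : G.N (S \ (insert p (insert v1 R))) v2 = {q} := by
    have e : G.N (S \ (insert p (insert v1 R))) v2 = (G.N (S \ R) v2) \ {p, v1} := by
      rw [BG.N_sdiff, BG.N_sdiff]
      ext x
      simp only [mem_sdiff, mem_insert, mem_singleton]
      tauto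
    rw [e, h2]
    grind
  have hv2p : v2 ∉ insert p (insert v1 R) := by
    have := BG.ne_of_adj a1
    grind
  rw [BG.forced hN hv2 hv2p]
  have hdq : G.deg (S \ (insert p (insert v1 R))) q = G.deg (S \ R) q := by
    have e : G.deg (S \ (insert p (insert v1 R))) q = G.deg ((S \ R) \ {p, v1}) q := by
      congr 1
      ext x
      simp only [mem_sdiff, mem_insert, mem_singleton]
      tauto
    rw [e]
    apply BG.deg_sdiff_eq
    intro r hr
    rw [mem_insert, mem_singleton] at hr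
    rcases hr with rfl | rfl
    · intro hadj
      exact hp (G.c4 v1 q v2 r hq a1 (G.symm _ _ a3) a2 hadj)
    · intro hadj
      exact BG.nadj_common (G.symm _ _ a1) a3 (G.symm _ _ hadj)
  have hdq1 : 1 ≤ G.deg (S \ R) q := card_pos.2 ⟨v2, BG.mem_N.2 ⟨mem_sdiff.2 ⟨hv2, hv2R⟩, G.symm _ _ a3⟩⟩
  rw [hdq, ← mul_assoc, ← pow_add]
  congr 3
  omega

/-- the induction hypothesis -/
def BG.P (G : BG V) (S : Finset V) : Prop :=
  G.F S ≤ 1 ∧
  (∀ v a b, v ∈ S → a ≠ b → G.N S v = {a, b} → 3 ≤ G.deg S a → 3 ≤ G.deg S b → G.F S ≤ yy) ∧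
  ((∃ w ∈ S, 3 ≤ G.deg S w) → G.F S ≤ 3 * yy ^ 5)

theorem card_sdiff_lt {S R : Finset V} {v : V} (hv : v ∈ S) (hR : v ∈ R) : (S \ R).card < S.card := by
  apply card_lt_card
  refine ⟨sdiff_subset, fun h => ?_⟩
  have := h hv
  rw [mem_sdiff] at this
  exact this.2 hR

theorem BG.forced_le {S R : Finset V} {v u : V} (IH : ∀ T : Finset V, T.card < S.card → G.P T)
    (hN : G.N (S \ R) v = {u}) (hv : v ∈ S) (hvR : v ∉ R) {k : ℕ} (hk : k + 1 ≤ G.deg (S \ R) u) :
    G.F (S \ R) ≤ yy ^ k := by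
  rw [BG.forced hN hv hvR]
  have h1 := (IH (S \ (insert u (insert v R))) (card_sdiff_lt hv (by simp))).1
  have h2 : yy ^ (G.deg (S \ R) u - 1) ≤ yy ^ k := yy_pow_le (by omega)
  have h3 := G.F_nonneg (S \ (insert u (insert v R)))
  have h4 : 0 < yy ^ k := pow_pos yy_pos k
  have h5 : 0 ≤ yy ^ (G.deg (S \ R) u - 1) := pow_nonneg yy_pos.le _
  nlinarith

end Pool.Agent.CFree
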