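import Pool.Agent.Lib_MP_6af485_co.Perm

/-!
# MP_6af485_co: the values of `v k`, `M k` for `k = 2, 3`
-/

set_option autoImplicit false

namespace Pool.Agent.CFree

open Finset

theorem perm_lower {n N : ℕ} (A : Matrix (Fin n) (Fin n) ℕ) (t : Fin N → Fin n → Fin n)
    (hinj : ∀ k, Function.Injective (t k)) (hne : Function.Injective t) (hA : ∀ k i, A (t k i) i = 1) :
    N ≤ A.permanent := by
  have h1 : (univ.filter fun σ : Equiv.Perm (Fin n) => ∀ i, A (σ i) i = 1).card ≤ A.permanent := by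
    unfold Matrix.permanent
    rw [card_eq_sum_ones, sum_filter]
    refine sum_le_sum fun σ _ => ?_
    by_cases h : ∀ i, A (σ i) i = 1
    · rw [if_pos h]
      exact (prod_eq_one fun i _ => h i).ge
    · rw [if_neg h]
      exact Nat.zero_le _
  refine le_trans ?_ h1
  have h2 : ∀ k, Function.Bijective (t k) := fun k => Finite.injective_iff_bijective.1 (hinj k)
  have h3 : (univ : Finset (Fin N)).card ≤ (univ.filter fun σ : Equiv.Perm (Fin n) => ∀ i, A (σ i) i = 1).card := by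
    refine card_le_card_of_injOn (fun k => Equiv.ofBijective (t k) (h2 k)) ?_ ?_
    · intro k _
      simp only [coe_filter, mem_univ, true_and, Set.mem_ofPred_eq]
      intro i
      rw [Equiv.ofBijective_apply]
      exact hA k i
    · intro k _ l _ h
      apply hne
      funext i
      have h4 := Equiv.congr_fun h i
      rwa [Equiv.ofBijective_apply, Equiv.ofBijective_apply] at h4
  simpa using h3

/-- `m ≥ k² - k + 1` for a `k`-regular `C₄`-free matrix -/
theorem reg_lower {k m : ℕ} {B : Matrix (Fin m) (Fin m) ℕ} (h : RegGirth6 k m B) : k * k + 1 ≤ k + m := by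
  obtain ⟨h01, hr, hc, h4, i, -⟩ := h
  have hsum : ∑ i', ∑ j, B i j * B i' j = k * k := by
    rw [sum_comm]
    have : ∀ j ∈ (univ : Finset (Fin m)), ∑ i', B i j * B i' j = B i j * k := by
      intro j _
      rw [← mul_sum, hc j]
    rw [sum_congr rfl this, ← sum_mul, hr i]
  have hone : ∀ i' ∈ univ.erase i, ∑ j, B i j * B i' j ≤ 1 := by
    intro i' hi'
    have hne : i ≠ i' := (mem_erase.1 hi').1.symm
    have e : ∑ j, B i j * B i' j = (univ.filter fun j => B i j = 1 ∧ B i' j = 1).card := by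
      rw [card_filter]
      refine sum_congr rfl fun j _ => ?_
      rcases h01 i j with h | h <;> rcases h01 i' j with h' | h' <;> simp [h, h']
    rw [e, card_le_one]
    intro a ha b hb
    simp only [mem_filter, mem_univ, true_and] at ha hb
    by_contra hab
    exact h4 i i' a b hne hab ⟨ha.1, hb.1, ha.2, hb.2⟩
  have hself : ∑ j, B i j * B i j = k := by
    rw [← hr i]
    refine sum_congr rfl fun j _ => ?_
    rcases h01 i j with h | h <;> simp [h]
  rw [← add_sum_erase univ _ (mem_univ i), hself] at hsum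
  have h5 : ∑ i' ∈ univ.erase i, ∑ j, B i j * B i' j ≤ ∑ i' ∈ univ.erase i, 1 := sum_le_sum hone
  rw [sum_const, card_erase_of_mem (mem_univ i), card_univ, Fintype.card_fin, smul_eq_mul, mul_one] at h5
  have h6 : 0 < m := i.pos
  omega

theorem ones_of_reg {k m : ℕ} {B : Matrix (Fin m) (Fin m) ℕ} (h : RegGirth6 k m B) : ones B = k * m := by
  obtain ⟨h01, hr, -⟩ := h
  rw [ones_rows]
  have : ∀ i ∈ (univ : Finset (Fin m)), (univ.filter fun j => B i j = 1).card = k := by
    intro i _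
    rw [← hr i, card_filter]
    refine sum_congr rfl fun j _ => ?_
    rcases h01 i j with h | h <;> simp [h]
  rw [sum_congr rfl this, sum_const, card_univ, Fintype.card_fin, smul_eq_mul, mul_comm]

/-- the hexagon -/
def hexM : Matrix (Fin 3) (Fin 3) ℕ := fun i j => if j = i ∨ j = i + 1 then 1 else 0

theorem hexM_reg : RegGirth6 2 3 hexM := by
  refine ⟨by unfold ZeroOne hexM; decide, by unfold hexM; decide, by unfold hexM; decide,
    by unfold C4Free hexM; decide, 0, 1, 2, 0, 1, 2, ?_⟩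
  unfold hexM
  decide

theorem v_two : v 2 = 3 := by
  apply le_antisymm
  · exact Nat.sInf_le ⟨hexM, hexM_reg⟩
  · have hne : {m | ∃ B : Matrix (Fin m) (Fin m) ℕ, RegGirth6 2 m B}.Nonempty := ⟨3, hexM, hexM_reg⟩
    obtain ⟨B, hB⟩ := Nat.sInf_mem hne
    have := reg_lower hB
    unfold v
    omega

theorem hexM_perm : 2 ≤ hexM.permanent := by
  refine perm_lower hexM ![![0, 1, 2], ![2, 0, 1]] ?_ ?_ ?_
  · unfold Function.Injective
    decide
  · unfold Function.Injective
    decide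
  · unfold hexM
    decide

theorem M_eq {k m p : ℕ} (hv : v k = m) (B : Matrix (Fin m) (Fin m) ℕ) (hB : RegGirth6 k m B)
    (hp : p ≤ B.permanent) (hup : ∀ B' : Matrix (Fin m) (Fin m) ℕ, RegGirth6 k m B' → B'.permanent ≤ p) :
    M k = p := by
  unfold M
  rw [hv]
  have hbdd : BddAbove {p | ∃ B : Matrix (Fin m) (Fin m) ℕ, RegGirth6 k m B ∧ B.permanent = p} := by
    refine ⟨p, ?_⟩
    rintro x ⟨B', hB', rfl⟩
    exact hup B' hB'
  apply le_antisymm
  · apply csSup_le
    · exact ⟨_, B, hB, rfl⟩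
    · rintro x ⟨B', hB', rfl⟩
      exact hup B' hB'
  · exact hp.trans (le_csSup hbdd ⟨B, hB, rfl⟩)

theorem M_two : M 2 = 2 := by
  refine M_eq v_two hexM hexM_reg hexM_perm ?_
  intro B hB
  have h1 := perm_bound B hB.1 hB.2.2.2.1
  rw [ones_of_reg hB] at h1
  by_contra hlt
  push Not at hlt
  have h2 : 3 ^ 3 ≤ B.permanent ^ 3 := Nat.pow_le_pow_left hlt 3
  norm_num at h1 h2
  omega

/-- the Fano plane -/
def fano : Matrix (Fin 7) (Fin 7) ℕ := fun i j => if j = i ∨ j = i + 1 ∨ j = i + 3 then 1 else 0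

theorem fano_reg : RegGirth6 3 7 fano := by
  refine ⟨by unfold ZeroOne fano; decide, by unfold fano; decide, by unfold fano; decide,
    by unfold C4Free fano; decide, 0, 1, 2, 3, 1, 2, ?_⟩
  unfold fano
  decide

theorem fano_perm : 24 ≤ fano.permanent := by
  refine perm_lower fano ![![0, 1, 2, 3, 4, 5, 6],
    ![0, 1, 6, 2, 3, 4, 5],
    ![0, 1, 6, 2, 4, 5, 3],
    ![0, 1, 6, 3, 4, 2, 5],
    ![0, 5, 1, 2, 3, 4, 6],
    ![0, 5, 1, 3, 4, 2, 6],
    ![0, 5, 2, 3, 1, 4, 6],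
    ![0, 5, 6, 2, 1, 4, 3],
    ![4, 0, 1, 2, 3, 5, 6],
    ![4, 0, 2, 3, 1, 5, 6],
    ![4, 0, 6, 2, 1, 5, 3],
    ![4, 0, 6, 3, 1, 2, 5],
    ![4, 1, 2, 0, 3, 5, 6],
    ![4, 1, 6, 0, 3, 2, 5],
    ![4, 5, 1, 0, 3, 2, 6],
    ![4, 5, 6, 0, 1, 2, 3],
    ![6, 0, 1, 2, 3, 4, 5],
    ![6, 0, 1, 2, 4, 5, 3],
    ![6, 0, 1, 3, 4, 2, 5],
    ![6, 0, 2, 3, 1, 4, 5],
    ![6, 1, 2, 0, 3, 4, 5],
    ![6, 1, 2, 0, 4, 5, 3],
    ![6, 5, 1, 0, 4, 2, 3],
    ![6, 5, 2, 0, 1, 4, 3]] ?_ ?_ ?_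
  · unfold Function.Injective
    decide
  · unfold Function.Injective
    decide
  · unfold fano
    decide

theorem v_three : v 3 = 7 := by
  apply le_antisymm
  · exact Nat.sInf_le ⟨fano, fano_reg⟩
  · have hne : {m | ∃ B : Matrix (Fin m) (Fin m) ℕ, RegGirth6 3 m B}.Nonempty := ⟨7, fano, fano_reg⟩
    obtain ⟨B, hB⟩ := Nat.sInf_mem hne
    have := reg_lower hB
    unfold v
    omega

theorem M_three : M 3 = 24 := by
  refine M_eq v_three fano fano_reg fano_perm ?_
  intro B hB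
  have hrow : 3 ≤ (univ.filter fun j => B 0 j = 1).card := by
    obtain ⟨h01, hr, -⟩ := hB
    rw [← hr 0, card_filter]
    refine (sum_congr rfl fun j _ => ?_).le
    rcases h01 0 j with h | h <;> simp [h]
  have h1 := perm_bound_three B hB.1 hB.2.2.2.1 (Or.inl ⟨0, hrow⟩)
  rw [ones_of_reg hB] at h1
  by_contra hlt
  push Not at hlt
  have h2 : 25 ^ 3 ≤ B.permanent ^ 3 := Nat.pow_le_pow_left hlt 3
  norm_num at h1 h2
  omega

end Pool.Agent.CFree
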